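import Pool.Agent.Y286.RR.Fun

set_option autoImplicit false

/-! The tree lemma: coefficients dominated by those of the children vanish. -/

namespace Pool.Agent.Y286.RR

open Filter Topology Set

namespace RS

variable {S : RS}

lemma summable_geom_int : Summable fun m : ℤ => (3 / 4 : ℝ) ^ m.natAbs := by
  have h : Summable fun n : ℕ => (3 / 4 : ℝ) ^ n :=
    summable_geometric_of_lt_one (by norm_num) (by norm_num)
  refine Summable.of_nat_of_neg ?_ ?_
  · simpa using h
  · simpa using h

open scoped Classical in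
theorem FL (hmono : StrictMono S.L) (a : ℤ → ℝ) {C : ℝ} (hC : 0 ≤ C) (s0 : ℕ)
    (hK : ∀ s, s0 ≤ s → ∀ m : ℤ, m.natAbs < 2 * S.L s →
      ENNReal.ofReal |a m| ≤ (∑' v, if S.Ch s m v then ENNReal.ofReal |a v| else 0) +
        ENNReal.ofReal (C / 2 ^ S.L s)) (m : ℤ) : a m = 0 := by
  have hLs : ∀ s, s ≤ S.L s := fun _ => hmono.le_apply
  -- step 1: a priori bound
  have h1 : ∀ m : ℤ, 2 * S.L s0 ≤ m.natAbs → |a m| ≤ C * (3 / 4) ^ m.natAbs := by
    intro m hm
    have hex : ∃ s, m.natAbs < 2 * S.L s := ⟨m.natAbs + 1, by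
      have := hLs (m.natAbs + 1)
      omega⟩
    set s := Nat.find hex with hs
    have h2 : m.natAbs < 2 * S.L s := Nat.find_spec hex
    have h3 : s0 < s := by
      by_contra h3
      have := hmono.monotone (not_lt.1 h3)
      omega
    obtain ⟨t, ht⟩ : ∃ t, s = t + 1 := ⟨s - 1, by omega⟩
    have h4 : 2 * S.L t ≤ m.natAbs := by
      have := Nat.find_min hex (m := t) (by omega)
      omega
    have h5 : ∀ v, ¬ S.Ch s m v := by
      rintro v ⟨n, s', hs', hv, hvm⟩
      have h6 := hv.2
      have h7 : S.L s' ≤ S.L t := hmono.monotone (by omega)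
      rw [hvm] at h6
      omega
    have h6 := hK s h3.le m h2
    simp only [h5, if_false, tsum_zero, zero_add] at h6
    have h7 : |a m| ≤ C / 2 ^ S.L s := (ENNReal.ofReal_le_ofReal_iff (by positivity)).1 h6
    refine h7.trans ?_
    rw [div_eq_mul_inv]
    refine mul_le_mul_of_nonneg_left ?_ hC
    calc ((2 : ℝ) ^ S.L s)⁻¹ = (1 / 2) ^ S.L s := by rw [one_div, inv_pow]
      _ ≤ ((3 / 4) ^ 2) ^ S.L s := pow_le_pow_left₀ (by norm_num) (by norm_num) _
      _ = (3 / 4) ^ (2 * S.L s) := by rw [← pow_mul]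
      _ ≤ (3 / 4) ^ m.natAbs := pow_le_pow_of_le_one (by norm_num) (by norm_num) h2.le
  have hsum : Summable fun m => |a m| := by
    have h2 : Summable a := by
      refine Summable.of_norm_bounded_eventually (summable_geom_int.mul_left C) ?_
      have hfin : {m : ℤ | ¬ 2 * S.L s0 ≤ m.natAbs}.Finite := by
        refine (Set.finite_Icc (-(2 * S.L s0 : ℤ)) (2 * S.L s0)).subset fun m hm => ?_
        simp only [Set.mem_ofPred_eq] at hm
        rw [Set.mem_Icc]
        omega
      rw [Filter.eventually_cofinite]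
      refine hfin.subset fun m hm => ?_
      simp only [Set.mem_ofPred_eq] at hm ⊢
      exact fun h3 => hm (by simpa [Real.norm_eq_abs] using h1 m h3)
    exact h2.abs
  set A : ℤ → ENNReal := fun m => ENNReal.ofReal |a m| with hA
  have hfin : ∑' m, A m ≠ ⊤ := by
    rw [← ENNReal.ofReal_tsum_of_nonneg (fun _ => abs_nonneg _) hsum]
    exact ENNReal.ofReal_ne_top
  -- step 2
  have h2 : ∀ m : ℤ, A m ≤ ∑' v, if (∃ n s, S.child v n s ∧ v - n = m) then A v else 0 := by
    intro m
    have hex : ∃ s, m.natAbs < 2 * S.L s := ⟨m.natAbs + 1, by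
      have := hLs (m.natAbs + 1)
      omega⟩
    obtain ⟨s1, hs1⟩ := hex
    have h3 : ∀ s, max s0 s1 ≤ s →
        A m ≤ (∑' v, if (∃ n s, S.child v n s ∧ v - n = m) then A v else 0) +
          ENNReal.ofReal (C / 2 ^ S.L s) := by
      intro s hs
      have h4 := hK s (le_trans (le_max_left _ _) hs) m (by
        have : S.L s1 ≤ S.L s := hmono.monotone (le_trans (le_max_right _ _) hs)
        omega)
      refine h4.trans (add_le_add_left (ENNReal.tsum_le_tsum fun v => ?_) _)
      by_cases h5 : S.Ch s m v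
      · obtain ⟨n, s', hs', hv, hvm⟩ := h5
        rw [if_pos ⟨n, s', hs', hv, hvm⟩, if_pos ⟨n, s', hv, hvm⟩]
      · rw [if_neg h5]; exact zero_le
    have h4 : Tendsto (fun s => ENNReal.ofReal (C / 2 ^ S.L s)) atTop (𝓝 0) := by
      have h5 : Tendsto (fun s => C / 2 ^ S.L s) atTop (𝓝 0) := by
        have h6 : Tendsto (fun s => (2 : ℝ) ^ S.L s) atTop atTop :=
          (tendsto_pow_atTop_atTop_of_one_lt (by norm_num)).comp hmono.tendsto_atTop
        exact h6.const_div_atTop C
      have := ENNReal.tendsto_ofReal h5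
      simpa using this
    have h5 : Tendsto (fun s => (∑' v, if (∃ n s, S.child v n s ∧ v - n = m) then A v else 0) +
          ENNReal.ofReal (C / 2 ^ S.L s)) atTop
          (𝓝 ((∑' v, if (∃ n s, S.child v n s ∧ v - n = m) then A v else 0) + 0)) :=
      tendsto_const_nhds.add h4
    rw [add_zero] at h5
    exact ge_of_tendsto h5 (Filter.eventually_atTop.2 ⟨max s0 s1, h3⟩)
  -- step 3
  set T : ℕ → ENNReal := fun r => ∑' m : ℤ, if r ≤ m.natAbs then A m else 0 with hT
  have h3 : ∀ r, T r ≤ T (r + 1) := by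
    intro r
    have h4 : T r ≤ ∑' m : ℤ, ∑' v : ℤ,
        if (r ≤ m.natAbs ∧ ∃ n s, S.child v n s ∧ v - n = m) then A v else 0 := by
      refine ENNReal.tsum_le_tsum fun m => ?_
      by_cases hr : r ≤ m.natAbs
      · rw [if_pos hr]
        simp only [hr, true_and]
        exact h2 m
      · rw [if_neg hr]; exact zero_le
    rw [ENNReal.tsum_comm] at h4
    refine h4.trans (ENNReal.tsum_le_tsum fun v => ?_)
    by_cases hv : S.IsChild v
    · obtain ⟨⟨n, s⟩, hv⟩ := hv
      simp only at hv
      have h5 := hv.lt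
      have h6 : ∀ m : ℤ, m ≠ v - n →
          (if (r ≤ m.natAbs ∧ ∃ n s, S.child v n s ∧ v - n = m) then A v else 0) = 0 := by
        intro m hm
        rw [if_neg]
        rintro ⟨-, n', s', hv', hvm⟩
        obtain ⟨h7, -⟩ := child_unique hv hv'
        exact hm (by rw [← hvm, h7])
      rw [tsum_eq_single _ h6]
      by_cases h7 : r ≤ (v - n).natAbs
      · rw [if_pos ⟨h7, n, s, hv, rfl⟩, if_pos (by omega)]
      · rw [if_neg (fun h8 => h7 h8.1)]; exact zero_le
    · have h6 : ∀ m : ℤ,
          (if (r ≤ m.natAbs ∧ ∃ n s, S.child v n s ∧ v - n = m) then A v else 0) = 0 := by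
        intro m
        rw [if_neg]
        rintro ⟨-, n', s', hv', -⟩
        exact hv hv'.isChild
      simp only [h6, tsum_zero]
      exact zero_le
  have h4 : T (m.natAbs + 1) + A m ≤ T m.natAbs := by
    have h5 : A m = ∑' k : ℤ, if k = m then A k else 0 := by
      rw [tsum_eq_single m]
      · rw [if_pos rfl]
      · intro k hk
        rw [if_neg hk]
    rw [h5, hT, ← ENNReal.tsum_add]
    refine ENNReal.tsum_le_tsum fun k => ?_
    by_cases h6 : k = m
    · subst h6
      rw [if_neg (by omega), if_pos rfl, if_pos le_rfl, zero_add]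
    · rw [if_neg h6, add_zero]
      by_cases h7 : m.natAbs + 1 ≤ k.natAbs
      · rw [if_pos h7, if_pos (by omega)]
      · rw [if_neg h7]; exact zero_le
  have h5 : T (m.natAbs + 1) ≠ ⊤ := by
    refine ne_top_of_le_ne_top hfin (ENNReal.tsum_le_tsum fun k => ?_)
    by_cases h7 : m.natAbs + 1 ≤ k.natAbs
    · rw [if_pos h7]
    · rw [if_neg h7]; exact zero_le
  have h6 : T (m.natAbs + 1) + A m ≤ T (m.natAbs + 1) + 0 := by
    rw [add_zero]; exact h4.trans (h3 _)
  have h7 : A m ≤ 0 := (ENNReal.add_le_add_iff_left h5).1 h6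
  have h8 : |a m| ≤ 0 := by
    have := le_antisymm h7 zero_le
    rwa [hA, ENNReal.ofReal_eq_zero] at this
  exact abs_nonpos_iff.1 h8

end RS

end Pool.Agent.Y286.RR
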