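import Mathlib

set_option autoImplicit false

/-! Facts about `ℓ₁`-sums. -/

namespace Pool.Agent.Y286.RR

open Filter Topology Set

section
variable {ι : Type} {E : ι → Type} [∀ i, NormedAddCommGroup (E i)]

lemma l1_norm_eq (x : lp E 1) : ‖x‖ = ∑' i, ‖x i‖ := by
  have h := lp.norm_eq_tsum_rpow (p := 1) (by simp) x
  simpa using h

lemma l1_summable (x : lp E 1) : Summable fun i => ‖x i‖ := by
  have h := (lp.memℓp x).summable (by simp)
  simpa using h

end

section
variable {ι : Type} {F : Type} [NormedAddCommGroup F] [NormedSpace ℝ F] [CompleteSpace F]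

lemma lift_summable {g : ι → F} {C : ℝ} (hg : ∀ i, ‖g i‖ ≤ C) (x : lp (fun _ : ι => ℝ) 1) :
    Summable fun i => x i • g i := by
  refine Summable.of_norm_bounded ((l1_summable x).mul_right C) fun i => ?_
  rw [norm_smul]
  exact mul_le_mul_of_nonneg_left (hg i) (norm_nonneg _)

omit [CompleteSpace F] in
lemma lift_summable_norm {g : ι → F} {C : ℝ} (hg : ∀ i, ‖g i‖ ≤ C) (x : lp (fun _ : ι => ℝ) 1) :
    Summable fun i => ‖x i • g i‖ := by
  refine Summable.of_nonneg_of_le (fun _ => norm_nonneg _) (fun i => ?_)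
    ((l1_summable x).mul_right C)
  rw [norm_smul]
  exact mul_le_mul_of_nonneg_left (hg i) (norm_nonneg _)

/-- universal property of `ℓ₁` -/
noncomputable def lift (g : ι → F) (C : ℝ) (hg : ∀ i, ‖g i‖ ≤ C) :
    lp (fun _ : ι => ℝ) 1 →L[ℝ] F :=
  LinearMap.mkContinuous
    { toFun := fun x => ∑' i, x i • g i
      map_add' := by
        intro x y
        rw [← (lift_summable hg x).tsum_add (lift_summable hg y)]
        refine tsum_congr fun i => ?_
        rw [lp.coeFn_add, Pi.add_apply, add_smul]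
      map_smul' := by
        intro c x
        rw [RingHom.id_apply, ← (lift_summable hg x).tsum_const_smul c]
        refine tsum_congr fun i => ?_
        rw [lp.coeFn_smul, Pi.smul_apply, smul_eq_mul, mul_smul] } C (by
    intro x
    show ‖∑' i, x i • g i‖ ≤ C * ‖x‖
    rw [l1_norm_eq, ← tsum_mul_left]
    refine (norm_tsum_le_tsum_norm (lift_summable_norm hg x)).trans ?_
    refine Summable.tsum_le_tsum (fun i => ?_) (lift_summable_norm hg x)
      ((l1_summable x).mul_left C)
    rw [norm_smul, mul_comm]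
    exact mul_le_mul_of_nonneg_right (hg i) (norm_nonneg _))

lemma lift_apply (g : ι → F) (C : ℝ) (hg : ∀ i, ‖g i‖ ≤ C) (x : lp (fun _ : ι => ℝ) 1) :
    lift g C hg x = ∑' i, x i • g i := rfl

lemma lift_hasSum (g : ι → F) (C : ℝ) (hg : ∀ i, ‖g i‖ ≤ C) (x : lp (fun _ : ι => ℝ) 1) :
    HasSum (fun i => x i • g i) (lift g C hg x) := (lift_summable hg x).hasSum

lemma lift_single [DecidableEq ι] (g : ι → F) (C : ℝ) (hg : ∀ i, ‖g i‖ ≤ C) (i : ι) :
    lift g C hg (lp.single 1 i 1) = g i := by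
  rw [lift_apply, tsum_eq_single i]
  · rw [lp.single_apply_self, one_smul]
  · intro j hj
    rw [lp.single_apply_ne _ _ _ hj, zero_smul]

lemma norm_lift_le (g : ι → F) (C : ℝ) (hg : ∀ i, ‖g i‖ ≤ C) (hC : 0 ≤ C) :
    ‖lift g C hg‖ ≤ C := LinearMap.mkContinuous_norm_le _ hC _

end

section
variable {ι : Type} {F : Type} [NormedAddCommGroup F] [NormedSpace ℝ F]

/-- diagonal operators on `ℓ₁`-sums -/
noncomputable def dsum (T : ι → F →L[ℝ] F) (C : ℝ) (hT : ∀ i, ‖T i‖ ≤ C) :
    lp (fun _ : ι => F) 1 →L[ℝ] lp (fun _ : ι => F) 1 :=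
  have hb : ∀ x : lp (fun _ : ι => F) 1, ∀ i, ‖T i (x i)‖ ≤ C * ‖x i‖ := fun x i =>
    ((T i).le_opNorm _).trans (mul_le_mul_of_nonneg_right (hT i) (norm_nonneg _))
  have hs : ∀ x : lp (fun _ : ι => F) 1, Summable fun i => ‖T i (x i)‖ := fun x =>
    Summable.of_nonneg_of_le (fun i => norm_nonneg _) (hb x) ((l1_summable x).mul_left C)
  LinearMap.mkContinuous
    { toFun := fun x => (⟨fun i => T i (x i), memℓp_gen (by simpa using hs x)⟩ :
        lp (fun _ : ι => F) 1)
      map_add' := by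
        intro x y
        apply lp.ext
        funext i
        show T i ((x + y : lp (fun _ : ι => F) 1) i) = T i (x i) + T i (y i)
        rw [lp.coeFn_add, Pi.add_apply, map_add]
      map_smul' := by
        intro c x
        apply lp.ext
        funext i
        show T i ((c • x : lp (fun _ : ι => F) 1) i) = c • T i (x i)
        rw [lp.coeFn_smul, Pi.smul_apply, map_smul] } C (by
    intro x
    rw [l1_norm_eq, l1_norm_eq, ← tsum_mul_left]
    exact Summable.tsum_le_tsum (hb x) (hs x) ((l1_summable x).mul_left C))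

lemma dsum_apply (T : ι → F →L[ℝ] F) (C : ℝ) (hT : ∀ i, ‖T i‖ ≤ C) (x : lp (fun _ : ι => F) 1)
    (i : ι) : dsum T C hT x i = T i (x i) := rfl

lemma dsum_pow_apply (T : ι → F →L[ℝ] F) (C : ℝ) (hT : ∀ i, ‖T i‖ ≤ C) (n : ℕ)
    (x : lp (fun _ : ι => F) 1) (i : ι) : (dsum T C hT ^ n) x i = (T i ^ n) (x i) := by
  induction n generalizing x with
  | zero => rfl
  | succ n ih =>
    rw [pow_succ, pow_succ, mul_apply_eq_comp, mul_apply_eq_comp, ih, dsum_apply]

lemma dsum_pow_single [DecidableEq ι] (T : ι → F →L[ℝ] F) (C : ℝ) (hT : ∀ i, ‖T i‖ ≤ C) (n : ℕ)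
    (i : ι) (a : F) : (dsum T C hT ^ n) (lp.single 1 i a) = lp.single 1 i ((T i ^ n) a) := by
  apply lp.ext
  funext j
  rw [dsum_pow_apply]
  by_cases h : j = i
  · subst h
    rw [lp.single_apply_self, lp.single_apply_self]
  · rw [lp.single_apply_ne _ _ _ h, lp.single_apply_ne _ _ _ h, map_zero]

end

end Pool.Agent.Y286.RR
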