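import Pool.Agent.Y286.RR.Sys
import Pool.Agent.Y286.RR.Ell1

set_option autoImplicit false

/-! The operator of a reset system on `ℓ₁(ℤ)`, and the separation estimate. -/

namespace Pool.Agent.Y286.RR

open Filter Topology Set

/-- the space `ℓ₁(ℤ)` -/
abbrev Y : Type := lp (fun _ : ℤ => ℝ) 1

/-- basis vectors -/
noncomputable def eb (v : ℤ) : Y := lp.single 1 v 1

lemma norm_eb_le (v : ℤ) : ‖eb v‖ ≤ 1 := by
  classical
  rw [eb, lp.norm_single (by simp)]
  simp

lemma eb_apply_self (v : ℤ) : eb v v = 1 := by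
  classical
  exact lp.single_apply_self _ _ _

lemma eb_apply_ne {v w : ℤ} (h : w ≠ v) : eb v w = 0 := by
  classical
  exact lp.single_apply_ne _ _ _ h

lemma hasSum_eb (w : Y) : HasSum (fun v => w v • eb v) w := by
  classical
  have h := lp.hasSum_single (p := 1) ENNReal.one_ne_top w
  convert h using 1
  funext v
  rw [eb, ← lp.single_smul, smul_eq_mul, mul_one]

namespace RS
variable (S : RS)

/-- the operator -/
noncomputable def op : Y →L[ℝ] Y := lift (S.gT eb) 8 (norm_gT_le eb norm_eb_le)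

variable {S}

lemma norm_op_le : ‖S.op‖ ≤ 8 := norm_lift_le _ _ _ (by norm_num)

lemma op_eb (v : ℤ) : S.op (eb v) = S.gT eb v := by
  classical
  exact lift_single (S.gT eb) 8 (norm_gT_le eb norm_eb_le) v

lemma op_pow_dl (y : ℕ) (v : ℤ) : (S.op ^ y) (S.dl eb v) = S.dl eb (v + y) :=
  pow_map_dl eb op_eb y v

variable (S)

open scoped Classical in
/-- the parent -/
noncomputable def par (v : ℤ) : ℤ := if h : S.IsChild v then v - h.choose.1 else 0

variable {S}

lemma par_child {v n : ℤ} {s : ℕ} (h : S.child v n s) : S.par v = v - n := by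
  have h1 : S.IsChild v := h.isChild
  have h2 := child_unique h1.choose_spec h
  rw [par, dif_pos h1, h2.1]

variable (S)

open scoped Classical in
/-- increments of a function on the tree -/
noncomputable def inc (θ : ℤ → ℝ) (y v : ℤ) : ℝ :=
  if S.IsChild v then θ (v + y) - θ (S.par v + y) else θ (v + y)

variable {S}

lemma inc_child {θ : ℤ → ℝ} {y v n : ℤ} {s : ℕ} (h : S.child v n s) :
    S.inc θ y v = θ (v + y) - θ (v - n + y) := by
  rw [inc, if_pos h.isChild, par_child h]

lemma inc_root {θ : ℤ → ℝ} {y v : ℤ} (h : ¬ S.IsChild v) :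
    S.inc θ y v = θ (v + y) := by
  rw [inc, if_neg h]

lemma apply_dl {F : Type} [NormedAddCommGroup F] [NormedSpace ℝ F] (f : Y →L[ℝ] F)
    (g : ℤ → F) (hc : ∀ v n s, S.child v n s → S.ell v • f (eb v) = g v - g (v - n))
    (hr : ∀ v, ¬ S.IsChild v → S.ell v • f (eb v) = g v) (v : ℤ) :
    f (S.dl eb v) = g v := by
  induction hk : v.natAbs using Nat.strong_induction_on generalizing v with
  | _ k ih =>
    by_cases h : S.IsChild v
    · obtain ⟨⟨n, s⟩, h⟩ := h
      simp only at h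
      rw [dl_child eb h, map_add, map_smul, hc v n s h, ih _ (hk ▸ h.lt) (v - n) rfl,
        sub_add_cancel]
    · rw [dl_root eb h, map_smul, hr v h]

/-- functionals given by functions on the tree -/
lemma exists_functional {θ : ℤ → ℝ} (h : ∀ v, |S.inc θ 0 v| ≤ S.ell v) :
    ∃ f : Y →L[ℝ] ℝ, ‖f‖ ≤ 1 ∧ ∀ v, f (S.dl eb v) = θ v := by
  have hb : ∀ v, ‖(S.ell v)⁻¹ * S.inc θ 0 v‖ ≤ 1 := by
    intro v
    have hpos := S.ell_pos v
    rw [norm_mul, norm_inv, Real.norm_of_nonneg hpos.le, inv_mul_le_iff₀ hpos, mul_one]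
    exact h v
  refine ⟨lift (fun v => (S.ell v)⁻¹ * S.inc θ 0 v) 1 hb, norm_lift_le _ _ _ zero_le_one, ?_⟩
  have h1 : ∀ v, lift (fun v => (S.ell v)⁻¹ * S.inc θ 0 v) 1 hb (eb v) =
      (S.ell v)⁻¹ * S.inc θ 0 v := fun v => by
    classical
    exact lift_single (fun v => (S.ell v)⁻¹ * S.inc θ 0 v) 1 hb v
  refine apply_dl _ _ ?_ ?_
  · intro v n s hv
    rw [h1, smul_eq_mul, mul_inv_cancel_left₀ (S.ell_pos v).ne', inc_child hv, add_zero, add_zero]
  · intro v hv
    rw [h1, smul_eq_mul, mul_inv_cancel_left₀ (S.ell_pos v).ne', inc_root hv, add_zero]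

lemma functional_pow {θ : ℤ → ℝ} {f : Y →L[ℝ] ℝ} (hf : ∀ v, f (S.dl eb v) = θ v) (y : ℕ)
    (v : ℤ) : f ((S.op ^ y) (eb v)) = (S.ell v)⁻¹ * S.inc θ y v := by
  have hpos := S.ell_pos v
  by_cases h : S.IsChild v
  · obtain ⟨⟨n, s⟩, h⟩ := h
    simp only at h
    have h1 := dl_child eb h
    have h2 : eb v = (S.ell v)⁻¹ • (S.dl eb v - S.dl eb (v - n)) := by
      rw [h1, add_sub_cancel_right, smul_smul, inv_mul_cancel₀ hpos.ne', one_smul]
    rw [h2, map_smul, map_smul, map_sub, map_sub, op_pow_dl, op_pow_dl, hf, hf, inc_child h,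
      smul_eq_mul]
  · have h1 := dl_root (S := S) eb h
    have h2 : eb v = (S.ell v)⁻¹ • S.dl eb v := by
      rw [h1, smul_smul, inv_mul_cancel₀ hpos.ne', one_smul]
    rw [h2, map_smul, map_smul, op_pow_dl, hf, inc_root h, smul_eq_mul]

lemma functional_hasSum {θ : ℤ → ℝ} {f : Y →L[ℝ] ℝ} (hf : ∀ v, f (S.dl eb v) = θ v) (y : ℕ)
    (w : Y) : HasSum (fun v => (w v / S.ell v) * S.inc θ y v) (f ((S.op ^ y) w)) := by
  have h1 := (f.comp (S.op ^ y)).hasSum (hasSum_eb w)
  have h2 : (fun v => (w v / S.ell v) * S.inc θ y v) =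
      fun v => (f.comp (S.op ^ y)) (w v • eb v) := by
    funext v
    rw [map_smul, ContinuousLinearMap.comp_apply, functional_pow hf, smul_eq_mul]
    ring
  rw [h2]
  exact h1

/-- the separation property of a function on the integers -/
structure Sep (S : RS) (s : ℕ) (y m : ℤ) (ψ : ℤ → Prop) : Prop where
  ic : ∀ u n s', S.child u n s' → (ψ (u - y) ↔ ψ (u - n - y))
  ir : ∀ u, ¬ S.IsChild u → ψ (u - y) → S.L s ≤ S.ht u
  mm : ψ m
  mc : ∀ n s', S.child m n s' → ¬ ψ (m - n)
  hi : ∀ v n s', v ≠ m → S.child v n s' → s ≤ s' → (ψ v ↔ ψ (v - n))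
  lo : ∀ v n s', v ≠ m → S.child v n s' → s' < s → ¬ ψ v ∧ (ψ (v - n) ↔ v - n = m)
  ro : ∀ v, v ≠ m → ¬ S.IsChild v → ψ v → S.L s ≤ S.ht v

/-- `v` is a child of `m` of level less than `s` -/
def Ch (S : RS) (s : ℕ) (m v : ℤ) : Prop := ∃ n s', s' < s ∧ S.child v n s' ∧ v - n = m

open scoped Classical in
/-- the separation estimate -/
theorem Sep.est {s y : ℕ} {m : ℤ} {ψ : ℤ → Prop} (h : Sep S s y m ψ) (w : Y) {B : ℝ}
    (hB : ‖(S.op ^ y) w‖ ≤ B) :
    ENNReal.ofReal |w m / S.ell m| ≤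
      (∑' v, if S.Ch s m v then ENNReal.ofReal |w v / S.ell v| else 0) +
        ENNReal.ofReal ((B + ‖w‖) / 2 ^ S.L s) := by
  set H : ℝ := 2 ^ S.L s with hH
  have hHpos : 0 < H := by positivity
  set θ : ℤ → ℝ := fun u => if ψ (u - y) then H else 0 with hθ
  have hθ' : ∀ u, θ (u + y) = if ψ u then H else 0 := by
    intro u
    simp only [hθ, add_sub_cancel_right]
  obtain ⟨f, hf1, hf⟩ : ∃ f : Y →L[ℝ] ℝ, ‖f‖ ≤ 1 ∧ ∀ v, f (S.dl eb v) = θ v := by
    refine exists_functional fun v => ?_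
    by_cases hv : S.IsChild v
    · obtain ⟨⟨n, s'⟩, hv⟩ := hv
      simp only at hv
      rw [inc_child hv, add_zero, add_zero]
      simp only [hθ, h.ic v n s' hv, sub_self, abs_zero]
      exact (ell_pos v).le
    · rw [inc_root hv, add_zero]
      by_cases h1 : ψ (v - y)
      · simp only [hθ, if_pos h1]
        rw [abs_of_pos hHpos, ell_root hv]
        exact pow_le_pow_right₀ (by norm_num) (h.ir v hv h1)
      · simp only [hθ, if_neg h1, abs_zero]
        exact (ell_pos v).le
  have hsum := functional_hasSum hf y w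
  set t : ℤ → ℝ := fun v => (w v / S.ell v) * S.inc θ y v with ht
  have htm : |t m| = H * |w m / S.ell m| := by
    have : S.inc θ y m = H := by
      by_cases hm : S.IsChild m
      · obtain ⟨⟨n, s'⟩, hm⟩ := hm
        simp only at hm
        rw [inc_child hm, hθ', hθ', if_pos h.mm, if_neg (h.mc n s' hm), sub_zero]
      · rw [inc_root hm, hθ', if_pos h.mm]
    simp only [ht]
    rw [this, abs_mul, abs_of_pos hHpos, mul_comm]
  have htv : ∀ v, v ≠ m → |t v| ≤ (if S.Ch s m v then H * |w v / S.ell v| else 0) + |w v| := by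
    intro v hvm
    have hpos := S.ell_pos v
    by_cases hv : S.IsChild v
    · obtain ⟨⟨n, s'⟩, hv⟩ := hv
      simp only at hv
      by_cases hs : s' < s
      · obtain ⟨h1, h2⟩ := h.lo v n s' hvm hv hs
        simp only [ht]
        rw [inc_child hv, hθ', hθ', if_neg h1]
        by_cases h3 : v - n = m
        · have h4 : S.Ch s m v := ⟨n, s', hs, hv, h3⟩
          rw [if_pos (h2.2 h3), if_pos h4, abs_mul, zero_sub, abs_neg, abs_of_pos hHpos, mul_comm]
          have := abs_nonneg (w v)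
          linarith
        · rw [if_neg (fun h5 => h3 (h2.1 h5)), sub_zero, mul_zero, abs_zero]
          positivity
      · have h1 := h.hi v n s' hvm hv (not_lt.1 hs)
        simp only [ht]
        rw [inc_child hv, hθ', hθ']
        simp only [h1, sub_self, mul_zero, abs_zero]
        positivity
    · simp only [ht]
      rw [inc_root hv, hθ']
      by_cases h1 : ψ v
      · have h2 := h.ro v hvm hv h1
        have h3 : H ≤ S.ell v := by
          rw [ell_root hv]
          exact pow_le_pow_right₀ (by norm_num) h2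
        rw [if_pos h1, abs_mul, abs_of_pos hHpos, abs_div, abs_of_pos hpos]
        have h4 : |w v| / S.ell v * H ≤ |w v| := by
          rw [div_mul_eq_mul_div, div_le_iff₀ hpos]
          exact mul_le_mul_of_nonneg_left h3 (abs_nonneg _)
        have h5 : 0 ≤ (if S.Ch s m v then H * (|w v| / S.ell v) else 0) := by positivity
        linarith
      · rw [if_neg h1, mul_zero, abs_zero]
        positivity
  -- real inequality
  have hval : |f ((S.op ^ y) w)| ≤ B := by
    have h1 := f.le_opNorm ((S.op ^ y) w)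
    have h2 : ‖f‖ * ‖(S.op ^ y) w‖ ≤ 1 * ‖(S.op ^ y) w‖ :=
      mul_le_mul_of_nonneg_right hf1 (norm_nonneg _)
    rw [Real.norm_eq_abs] at h1
    linarith
  have hts : Summable t := hsum.summable
  have hsplit := hts.tsum_eq_add_tsum_ite m
  rw [hsum.tsum_eq] at hsplit
  set r : ℤ → ℝ := fun v => if v = m then 0 else t v with hr
  have hrs : Summable fun v => |r v| := by
    refine Summable.of_nonneg_of_le (fun _ => abs_nonneg _) (fun v => ?_) hts.abs
    simp only [hr]
    by_cases hv : v = m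
    · rw [if_pos hv, abs_zero]; exact abs_nonneg _
    · rw [if_neg hv]
  have h1 : H * |w m / S.ell m| ≤ B + ∑' v, |r v| := by
    rw [← htm]
    have h2 : t m = f ((S.op ^ y) w) - ∑' v, r v := by
      rw [hsplit]; ring
    rw [h2]
    have h3 : |∑' v, r v| ≤ ∑' v, |r v| := by
      have := norm_tsum_le_tsum_norm (f := r) hrs
      simpa [Real.norm_eq_abs] using this
    have h4 := abs_sub (f ((S.op ^ y) w)) (∑' v, r v)
    linarith
  have h2 : ENNReal.ofReal (∑' v, |r v|) = ∑' v, ENNReal.ofReal |r v| :=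
    ENNReal.ofReal_tsum_of_nonneg (fun _ => abs_nonneg _) hrs
  have h3 : ∀ v, ENNReal.ofReal |r v| ≤
      ENNReal.ofReal H * (if S.Ch s m v then ENNReal.ofReal |w v / S.ell v| else 0) +
        ENNReal.ofReal |w v| := by
    intro v
    by_cases hv : v = m
    · simp only [hr, if_pos hv, abs_zero, ENNReal.ofReal_zero]
      exact zero_le
    · have h4 : |r v| = |t v| := by simp only [hr, if_neg hv]
      rw [h4]
      refine (ENNReal.ofReal_le_ofReal (htv v hv)).trans ?_
      rw [ENNReal.ofReal_add (by positivity) (abs_nonneg _)]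
      gcongr
      by_cases h5 : S.Ch s m v
      · rw [if_pos h5, if_pos h5, ENNReal.ofReal_mul hHpos.le]
      · rw [if_neg h5, if_neg h5, ENNReal.ofReal_zero, mul_zero]
  have hBn : 0 ≤ B := (norm_nonneg _).trans hB
  have h4 : ∑' v, ENNReal.ofReal |w v| = ENNReal.ofReal ‖w‖ := by
    rw [l1_norm_eq, ENNReal.ofReal_tsum_of_nonneg (fun _ => norm_nonneg _) (l1_summable w)]
    rfl
  have h5 : ENNReal.ofReal H * ENNReal.ofReal |w m / S.ell m| ≤
      ENNReal.ofReal H * (∑' v, if S.Ch s m v then ENNReal.ofReal |w v / S.ell v| else 0) +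
        ENNReal.ofReal (B + ‖w‖) := by
    rw [← ENNReal.ofReal_mul hHpos.le]
    refine (ENNReal.ofReal_le_ofReal h1).trans ?_
    rw [ENNReal.ofReal_add hBn (tsum_nonneg fun _ => abs_nonneg _), h2]
    have h6 : ∑' v, ENNReal.ofReal |r v| ≤
        ENNReal.ofReal H * (∑' v, if S.Ch s m v then ENNReal.ofReal |w v / S.ell v| else 0) +
        ENNReal.ofReal ‖w‖ := by
      refine (ENNReal.tsum_le_tsum h3).trans ?_
      rw [ENNReal.tsum_add, ENNReal.tsum_mul_left, h4]
    rw [ENNReal.ofReal_add hBn (norm_nonneg _)]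
    calc ENNReal.ofReal B + ∑' v, ENNReal.ofReal |r v|
        ≤ ENNReal.ofReal B + (ENNReal.ofReal H *
          (∑' v, if S.Ch s m v then ENNReal.ofReal |w v / S.ell v| else 0) +
          ENNReal.ofReal ‖w‖) := by gcongr
      _ = _ := by ring
  have hH0 : ENNReal.ofReal H ≠ 0 := by
    rw [Ne, ENNReal.ofReal_eq_zero, not_le]; exact hHpos
  have hHt : ENNReal.ofReal H ≠ ⊤ := ENNReal.ofReal_ne_top
  have h6 : ENNReal.ofReal (B + ‖w‖) = ENNReal.ofReal H * ENNReal.ofReal ((B + ‖w‖) / H) := by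
    rw [← ENNReal.ofReal_mul hHpos.le, mul_div_cancel₀ _ hHpos.ne']
  rw [h6, ← mul_add] at h5
  exact (ENNReal.mul_le_mul_iff_right hH0 hHt).1 h5

end RS

end Pool.Agent.Y286.RR
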