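import Pool.Agent.Y286.RR.Par
import Pool.Agent.Y286.RR.Fun

set_option autoImplicit false

/-! Separation in the first system at bad times. -/

namespace Pool.Agent.Y286.RR

open Filter Topology Set

namespace Par

variable (P : Par)

/-- resets of low level in the first system are close to `0` or far from the multiples of the
modulus -/
lemma T0_low {κ s' : ℕ} {n : ℤ} (hs : s' < κ) (hn : n ∈ P.T0.R s') :
    (0 < n ∧ n ≤ P.L κ) ∨ ∀ k : ℤ, 100 * P.K κ ≤ (n - k * P.D κ).natAbs := by
  obtain ⟨i, hi, hls, h1, h2, -, h3⟩ := hn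
  rcases lt_trichotomy i κ with h | h | h
  · left
    have e1 := P.hKD' i
    have e2 := P.hDL i κ h
    have e3 := P.hLK i
    have e4 := P.hL i
    push_cast at h1 h2
    omega
  · subst h
    right
    intro k
    have e1 := P.hKD' i
    push_cast at h1 h2
    rcases lt_or_ge k 1 with hk | hk
    · have : k * (P.D i : ℤ) ≤ 0 := mul_nonpos_of_nonpos_of_nonneg (by omega) (by positivity)
      omega
    · have : 1 * (P.D i : ℤ) ≤ k * (P.D i : ℤ) := mul_le_mul_of_nonneg_right hk (by positivity)
      omega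
  · right
    exact h3 κ (by omega) h

lemma T0_high {κ s' : ℕ} {n : ℤ} (hs : κ ≤ s') (hn : n ∈ P.T0.R s') : (P.D κ : ℤ) ∣ n := by
  obtain ⟨i, hi, hls, h1, h2, h3, -⟩ := hn
  exact (Int.natCast_dvd_natCast.2 (P.hDD κ s' hs)).trans h3

theorem sepA {κ : ℕ} {y m k0 : ℤ} (hm : m.natAbs < 2 * P.L κ)
    (h1 : 5 * P.L κ ≤ (y - k0 * P.D κ).natAbs) (h2 : (y - k0 * P.D κ).natAbs ≤ 90 * P.K κ) :
    P.T0.Sep κ y m (fun v => (P.D κ : ℤ) ∣ v - m) := by
  have e1 := P.hKD' κ
  have e2 := P.hLK κ
  have e3 := P.hL κ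
  obtain ⟨Y, hY⟩ : ∃ Y, Y = y - k0 * P.D κ := ⟨_, rfl⟩
  rw [← hY] at h1 h2
  have hLeq : ∀ j, P.T0.L j = P.L j := fun _ => rfl
  -- reduction
  have hred : ∀ x : ℤ, (P.D κ : ℤ) ∣ x - y - m ↔ (P.D κ : ℤ) ∣ x - Y - m := by
    intro x
    have : x - Y - m = x - y - m + k0 * P.D κ := by rw [hY]; ring
    rw [this]
    exact (dvd_add_left (dvd_mul_left _ _)).symm
  have hz : ∀ x : ℤ, (P.D κ : ℤ) ∣ x → x.natAbs < P.D κ → x = 0 := fun x h h' =>
    eq_zero_of_dvd h h'
  have hq : ∀ x : ℤ, (P.D κ : ℤ) ∣ x → ∃ k : ℤ, x = k * P.D κ := fun x ⟨k, hk⟩ =>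
    ⟨k, by rw [hk]; ring⟩
  have hRh : ∀ u, ∀ n, ∀ s', n ∈ P.T0.R s' → ¬ P.T0.IsChild u → κ ≤ s' →
      P.L κ ≤ (u - n).natAbs := by
    intro u n s' hn hu hs
    by_contra hcon
    refine hu ⟨(n, s'), hn, ?_⟩
    rw [hLeq]
    have := P.L_mono hs
    simp only
    omega
  refine ⟨?_, ?_, ?_, ?_, ?_, ?_, ?_⟩
  · -- ic
    intro u n s' hc
    rcases lt_or_ge s' κ with hs | hs
    · have hl := hc.2
      rw [hLeq] at hl
      have e4 := P.L_mono hs.le
      have a1 : ¬ (P.D κ : ℤ) ∣ u - n - y - m := by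
        rw [hred]
        intro h
        have := hz _ h (by omega)
        omega
      have a2 : ¬ (P.D κ : ℤ) ∣ u - y - m := by
        rw [hred]
        intro h
        rcases P.T0_low hs hc.1 with h3 | h3
        · have := hz _ h (by omega)
          omega
        · obtain ⟨k, hk⟩ := hq _ h
          have h4 := h3 k
          omega
      exact iff_of_false a2 a1
    · have h3 := P.T0_high hs hc.1
      have : u - y - m = (u - n - y - m) + n := by ring
      show (P.D κ : ℤ) ∣ u - y - m ↔ (P.D κ : ℤ) ∣ u - n - y - m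
      rw [this]
      exact dvd_add_left h3
  · -- ir
    intro u hu h
    have h : (P.D κ : ℤ) ∣ u - y - m := h
    rw [hred] at h
    rw [hLeq]
    refine RS.le_ht ?_ ?_
    · by_contra hcon
      have := hz _ h (by omega)
      omega
    · intro s' n hn
      rcases lt_or_ge s' κ with hs | hs
      · by_contra hcon
        rcases P.T0_low hs hn with h3 | h3
        · have := hz _ h (by omega)
          omega
        · obtain ⟨k, hk⟩ := hq _ h
          have h4 := h3 k
          omega
      · exact hRh u n s' hn hu hs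
  · -- mm
    show (P.D κ : ℤ) ∣ m - m
    rw [sub_self]; exact dvd_zero _
  · -- mc
    intro n s' hc h
    have h : (P.D κ : ℤ) ∣ m - n - m := h
    have hl := hc.2
    have hp := P.T0.pos s' n hc.1
    rw [hLeq] at hl hp
    have := hz _ h (by omega)
    omega
  · -- hi
    intro v n s' hvm hc hs
    have h3 := P.T0_high hs hc.1
    have : v - m = (v - n - m) + n := by ring
    show (P.D κ : ℤ) ∣ v - m ↔ (P.D κ : ℤ) ∣ v - n - m
    rw [this]
    exact dvd_add_left h3
  · -- lo
    intro v n s' hvm hc hs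
    have hl := hc.2
    rw [hLeq] at hl
    have e4 := P.L_mono hs.le
    refine ⟨?_, ?_⟩
    · intro h
      have h : (P.D κ : ℤ) ∣ v - m := h
      rcases P.T0_low hs hc.1 with h3 | h3
      · have := hz _ h (by omega)
        omega
      · obtain ⟨k, hk⟩ := hq _ h
        have h4 := h3 k
        omega
    · constructor
      · intro h
        have h : (P.D κ : ℤ) ∣ v - n - m := h
        have := hz _ h (by omega)
        omega
      · intro h
        show (P.D κ : ℤ) ∣ v - n - m
        rw [h, sub_self]; exact dvd_zero _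
  · -- ro
    intro v hvm hv h
    have h : (P.D κ : ℤ) ∣ v - m := h
    rw [hLeq]
    refine RS.le_ht ?_ ?_
    · by_contra hcon
      have := hz _ h (by omega)
      omega
    · intro s' n hn
      rcases lt_or_ge s' κ with hs | hs
      · by_contra hcon
        rcases P.T0_low hs hn with h3 | h3
        · have := hz _ h (by omega)
          omega
        · obtain ⟨k, hk⟩ := hq _ h
          have h4 := h3 k
          omega
      · exact hRh v n s' hn hv hs

end Par

end Pool.Agent.Y286.RR
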