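import Pool.Agent.Y286.RR.Par
import Pool.Agent.Y286.RR.Fun

set_option autoImplicit false

/-! Separation in the second system at good times. -/

namespace Pool.Agent.Y286.RR

open Filter Topology Set

namespace Par

variable (P : Par)

/-- resets of the `i`-th window -/
def W (i : ℕ) : Set ℤ :=
  {n | 1 ≤ i ∧ 30 * (P.K i : ℤ) ≤ n ∧ n ≤ 45 * (P.K i : ℤ) ∧ (P.D (lam i) : ℤ) ∣ n}

lemma mem_T1 {n : ℤ} {s : ℕ} : n ∈ P.T1.R s ↔ ∃ i, lam i = s ∧ n ∈ P.W i := by
  constructor
  · rintro ⟨i, hi, hs, h1, h2, h3, -⟩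
    push_cast at h1 h2
    exact ⟨i, hs, hi, h1, h2, hs ▸ h3⟩
  · rintro ⟨i, hs, hi, h1, h2, h3⟩
    refine ⟨i, hi, hs, ?_, ?_, hs ▸ h3, trivial⟩
    · push_cast; exact h1
    · push_cast; exact h2

lemma W_unique {i : ℕ} {n n' : ℤ} (h : n ∈ P.W i) (h' : n' ∈ P.W i)
    (hd : (n - n').natAbs < 4 * P.L (lam i)) : n = n' := by
  have h1 := eq_zero_of_dvd (D := P.D (lam i)) (dvd_sub h.2.2.2 h'.2.2.2) (by
    have e1 := P.hLK (lam i)
    have e2 := P.hKD' (lam i)
    omega)
  omega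

section
variable (s : ℕ)

/-- the known region at step `i` -/
def Spec (i : ℕ) (v : ℤ) : Prop :=
  v.natAbs < 2 * P.L i ∨ ∃ n ∈ P.W i, (v - n).natAbs < 2 * P.L (max (lam i) s)

/-- the values in the known region -/
def F1 (i : ℕ) (f : ℤ → Prop) (v : ℤ) : Prop :=
  (v.natAbs < 2 * P.L i ∧ f v) ∨
    (s ≤ lam i ∧ ∃ n ∈ P.W i, (v - n).natAbs < 2 * P.L (lam i) ∧ f (v - n))

/-- the extension step -/
def stp (i : ℕ) (f g : ℤ → Prop) (Y v : ℤ) : Prop :=
  P.F1 s i f v ∨ (¬ P.Spec s i v ∧ P.F1 s i g (v + Y))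

variable {P s}

lemma F1.spec {i : ℕ} {f : ℤ → Prop} {v : ℤ} (h : P.F1 s i f v) : P.Spec s i v := by
  rcases h with h | ⟨hs, n, hn, hv, -⟩
  · exact Or.inl h.1
  · refine Or.inr ⟨n, hn, ?_⟩
    rwa [max_eq_left hs]

lemma W_large {i : ℕ} {n v : ℤ} (hn : n ∈ P.W i) {r : ℕ} (hr : r ≤ i)
    (hv : (v - n).natAbs < 2 * P.L r) : 28 * P.K i < v.natAbs ∧ v.natAbs < 46 * P.K i := by
  obtain ⟨h1, h2, h3, -⟩ := hn
  have e1 := P.hLK i
  have e2 := P.hL i
  have e3 := P.L_mono hr
  omega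

lemma F1_old {i : ℕ} {f : ℤ → Prop} {v : ℤ} (hv : v.natAbs < 2 * P.L i) :
    P.F1 s i f v ↔ f v := by
  constructor
  · rintro (h | ⟨-, n, hn, h1, -⟩)
    · exact h.2
    · exfalso
      have h2 := W_large hn (lam_lt hn.1).le h1
      have e1 := P.hLK i
      omega
  · intro h
    exact Or.inl ⟨hv, h⟩

lemma F1_near {i : ℕ} {f : ℤ → Prop} {v n : ℤ} (hs : s ≤ lam i) (hn : n ∈ P.W i)
    (hv : (v - n).natAbs < 2 * P.L (lam i)) : P.F1 s i f v ↔ f (v - n) := by
  have h2 := W_large hn (lam_lt hn.1).le hv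
  have e1 := P.hLK i
  constructor
  · rintro (h | ⟨-, n', hn', h1, h3⟩)
    · exfalso
      omega
    · have h4 : n = n' := P.W_unique hn hn' (by omega)
      rw [h4]; exact h3
  · intro h
    exact Or.inr ⟨hs, n, hn, hv, h⟩

lemma F1_low {i : ℕ} {f : ℤ → Prop} {v n : ℤ} (hs : lam i < s) (hsi : s ≤ i) (hn : n ∈ P.W i)
    (hv : (v - n).natAbs < 2 * P.L s) : ¬ P.F1 s i f v := by
  have h2 := W_large hn hsi hv
  have e1 := P.hLK i
  rintro (h | ⟨h1, -⟩)
  · omega
  · omega

lemma stp_of_spec {i : ℕ} {f g : ℤ → Prop} {Y v : ℤ} (hv : P.Spec s i v) :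
    P.stp s i f g Y v ↔ P.F1 s i f v := by
  constructor
  · rintro (h | h)
    · exact h
    · exact absurd hv h.1
  · intro h
    exact Or.inl h

lemma stp_old {i : ℕ} {f g : ℤ → Prop} {Y v : ℤ} (hv : v.natAbs < 2 * P.L i) :
    P.stp s i f g Y v ↔ f v := by
  rw [stp_of_spec (Or.inl hv), F1_old hv]

/-- invariants of one of the two functions -/
structure Half (P : Par) (s i : ℕ) (f : ℤ → Prop) : Prop where
  c2 : ∀ j, s ≤ j → j < i → s ≤ lam j → ∀ n ∈ P.W j, ∀ v : ℤ,
    (v - n).natAbs < 2 * P.L (lam j) → (f v ↔ f (v - n))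
  c3 : ∀ j, s ≤ j → j < i → lam j < s → ∀ n ∈ P.W j, ∀ v : ℤ,
    (v - n).natAbs < 2 * P.L s → ¬ f v

lemma near_lt {i j : ℕ} (hji : j < i) {n v : ℤ} (hn : n ∈ P.W j) {r : ℕ} (hr : r ≤ j)
    (hv : (v - n).natAbs < 2 * P.L r) : v.natAbs < P.L i := by
  have h2 := W_large hn hr hv
  have e1 := P.hDL j i hji
  have e2 := P.hKD' j
  omega

lemma Half.step {i : ℕ} (hsi : s ≤ i) {f g : ℤ → Prop} {Y : ℤ} (h : Half P s i f) :
    Half P s (i + 1) (P.stp s i f g Y) := by
  constructor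
  · intro j hsj hji hsl n hn v hv
    have hl := lam_lt hn.1
    have h0 : (v - n).natAbs < 2 * P.L i := by
      have := P.L_mono (i := lam j) (j := i) (by omega)
      omega
    rcases Nat.lt_or_ge j i with h1 | h1
    · have h2 := near_lt h1 hn hl.le hv
      rw [stp_old (by omega), stp_old h0]
      exact h.c2 j hsj h1 hsl n hn v hv
    · have h2 : j = i := by omega
      subst h2
      rw [stp_old h0, stp_of_spec (Or.inr ⟨n, hn, by rwa [max_eq_left hsl]⟩), F1_near hsl hn hv]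
  · intro j hsj hji hsl n hn v hv
    rcases Nat.lt_or_ge j i with h1 | h1
    · have h2 := near_lt h1 hn hsj hv
      rw [stp_old (by omega)]
      exact h.c3 j hsj h1 hsl n hn v hv
    · have h2 : j = i := by omega
      subst h2
      rw [stp_of_spec (Or.inr ⟨n, hn, by rwa [max_eq_right hsl.le]⟩)]
      exact F1_low hsl hsj hn hv

/-- all invariants -/
structure Inv (P : Par) (s : ℕ) (m y : ℤ) (Yf : ℕ → ℤ) (i : ℕ) (f g : ℤ → Prop) : Prop where
  hf : Half P s i f
  hg : Half P s i g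
  c1f : ∀ l : ℤ, l.natAbs < 2 * P.L s → (f l ↔ l = m)
  c1g : ∀ l : ℤ, l.natAbs < 2 * P.L s → ¬ g l
  c4 : ∀ j, s ≤ j → j ≤ i → ∀ l : ℤ, l.natAbs < 2 * P.L j → (l + Yf j).natAbs < 2 * P.L j →
    (f l ↔ g (l + Yf j))

lemma Inv.step {m y : ℤ} {Yf : ℕ → ℤ} {i : ℕ} {f g : ℤ → Prop} (hsi : s ≤ i)
    (hY1 : ∀ i, (P.D i : ℤ) ∣ y - Yf i) (hY2 : ∀ i, 2 * (Yf i).natAbs ≤ P.D i)
    (hgood : ∀ i, s ≤ i → (Yf i).natAbs < 5 * P.L i ∨ 90 * P.K i < (Yf i).natAbs)
    (h : Inv P s m y Yf i f g) :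
    Inv P s m y Yf (i + 1) (P.stp s i f g (Yf (i + 1))) (P.stp s i g f (-Yf (i + 1))) := by
  have hsL := P.L_mono hsi
  refine ⟨h.hf.step hsi, h.hg.step hsi, ?_, ?_, ?_⟩
  · intro l hl
    rw [stp_old (by omega)]
    exact h.c1f l hl
  · intro l hl
    rw [stp_old (by omega)]
    exact h.c1g l hl
  · intro j hsj hji l hl1 hl2
    rcases Nat.lt_or_ge j (i + 1) with h1 | h1
    · have e1 := P.L_mono (i := j) (j := i) (by omega)
      rw [stp_old (by omega), stp_old (by omega)]
      exact h.c4 j hsj (by omega) l hl1 hl2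
    · have h2 : j = i + 1 := by omega
      subst h2
      obtain ⟨Y, hY⟩ : ∃ Y, Y = Yf (i + 1) := ⟨_, rfl⟩
      rw [← hY] at hl2 ⊢
      -- the alternative for `Y`
      have e1 := P.hLK i
      have e2 := P.hKD' i
      have e3 := P.hL i
      have hdvd : (P.D i : ℤ) ∣ Y - Yf i := by
        have h3 : (P.D i : ℤ) ∣ y - Y := by
          rw [hY]
          exact (Int.natCast_dvd_natCast.2 (P.hDD i (i + 1) (by omega))).trans (hY1 (i + 1))
        have h4 := dvd_sub (hY1 i) h3
        have h5 : y - Yf i - (y - Y) = Y - Yf i := by ring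
        rwa [h5] at h4
      have halt : (Y.natAbs < 5 * P.L i ∧ Y = Yf i) ∨ 90 * P.K i < Y.natAbs := by
        by_cases h3 : 90 * P.K i < Y.natAbs
        · exact Or.inr h3
        · left
          have h4 : Y = Yf i := by
            have h5 := eq_zero_of_dvd hdvd (by have := hY2 i; omega)
            omega
          have h5 := hgood i hsi
          rw [← h4] at h5
          exact ⟨by omega, h4⟩
      -- main claim
      have key : P.Spec s i l → P.Spec s i (l + Y) → (P.F1 s i f l ↔ P.F1 s i g (l + Y)) := by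
        intro hs1 hs2
        have hnear : ∀ n ∈ P.W i, ∀ v : ℤ, (v - n).natAbs < 2 * P.L (max (lam i) s) →
            28 * P.K i < v.natAbs ∧ v.natAbs < 46 * P.K i := fun n hn v hv =>
          W_large hn (max_le (lam_lt hn.1).le hsi) hv
        rcases hs1 with hs1 | ⟨n, hn, hs1⟩
        · rcases hs2 with hs2 | ⟨n', hn', hs2⟩
          · rw [F1_old hs1, F1_old hs2]
            rcases halt with h3 | h3
            · rw [h3.2]
              rw [h3.2] at hs2
              exact h.c4 i hsi le_rfl l hs1 hs2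
            · exfalso; omega
          · exfalso
            have h4 := hnear n' hn' _ hs2
            rcases halt with h3 | h3
            · have := h3.1
              omega
            · omega
        · have h4 := hnear n hn _ hs1
          rcases hs2 with hs2 | ⟨n', hn', hs2⟩
          · exfalso
            rcases halt with h3 | h3
            · have := h3.1
              omega
            · omega
          · have h5 := hnear n' hn' _ hs2
            have hlam := lam_lt hn.1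
            have hmax := P.L_mono (max_le hlam.le hsi)
            have h6 : Y.natAbs < 5 * P.L i ∧ Y = Yf i := by
              rcases halt with h3 | h3
              · exact h3
              · exfalso
                have a1 := hn.2.1
                have a2 := hn.2.2.1
                have a3 := hn'.2.1
                have a4 := hn'.2.2.1
                omega
            rcases Nat.lt_or_ge (lam i) s with hl | hl
            · rw [max_eq_right hl.le] at hs1 hs2
              exact iff_of_false (F1_low hl hsi hn hs1) (F1_low hl hsi hn' hs2)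
            · rw [max_eq_left hl] at hs1 hs2
              rw [F1_near hl hn hs1, F1_near hl hn' hs2]
              have e4 := P.hLK (lam i)
              have e5 := P.hKD' (lam i)
              have e6 := hY2 (lam i)
              have h7 : (P.D (lam i) : ℤ) ∣ (l + Y - n') - (l - n) - Yf (lam i) := by
                have b1 : (P.D (lam i) : ℤ) ∣ n - n' := dvd_sub hn.2.2.2 hn'.2.2.2
                have b2 : (P.D (lam i) : ℤ) ∣ y - Y := by
                  rw [h6.2]
                  exact (Int.natCast_dvd_natCast.2 (P.hDD (lam i) i hlam.le)).trans (hY1 i)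
                have b3 := hY1 (lam i)
                have b4 := dvd_add b1 (dvd_sub b3 b2)
                have b5 : n - n' + (y - Yf (lam i) - (y - Y)) =
                    (l + Y - n') - (l - n) - Yf (lam i) := by ring
                rwa [b5] at b4
              have h8 := eq_zero_of_dvd h7 (by omega)
              have h9 : l + Y - n' = (l - n) + Yf (lam i) := by omega
              rw [h9]
              rw [h9] at hs2
              exact h.c4 (lam i) hl hlam.le _ hs1 hs2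
      have hback : l + Y + -Y = l := by ring
      unfold stp
      rw [hback]
      by_cases a1 : P.Spec s i l
      · by_cases a2 : P.Spec s i (l + Y)
        · have := key a1 a2
          tauto
        · have a3 : ¬ P.F1 s i g (l + Y) := fun h => a2 h.spec
          tauto
      · have a3 : ¬ P.F1 s i f l := fun h => a1 h.spec
        by_cases a2 : P.Spec s i (l + Y)
        · tauto
        · have a4 : ¬ P.F1 s i g (l + Y) := fun h => a2 h.spec
          tauto

/-- the sequence of stages -/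
def stage (P : Par) (s : ℕ) (m : ℤ) (Yf : ℕ → ℤ) : ℕ → (ℤ → Prop) × (ℤ → Prop)
  | 0 => (fun v => v = m, fun _ => False)
  | k + 1 => (P.stp s (s + k) (stage P s m Yf k).1 (stage P s m Yf k).2 (Yf (s + k + 1)),
      P.stp s (s + k) (stage P s m Yf k).2 (stage P s m Yf k).1 (-Yf (s + k + 1)))

lemma stage_inv {m y : ℤ} {Yf : ℕ → ℤ}
    (hY1 : ∀ i, (P.D i : ℤ) ∣ y - Yf i) (hY2 : ∀ i, 2 * (Yf i).natAbs ≤ P.D i)
    (hgood : ∀ i, s ≤ i → (Yf i).natAbs < 5 * P.L i ∨ 90 * P.K i < (Yf i).natAbs)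
    (hlarge : 90 * P.K s < (Yf s).natAbs) (k : ℕ) :
    Inv P s m y Yf (s + k) (stage P s m Yf k).1 (stage P s m Yf k).2 := by
  induction k with
  | zero =>
    refine ⟨⟨?_, ?_⟩, ⟨?_, ?_⟩, ?_, ?_, ?_⟩
    · intro j h1 h2; omega
    · intro j h1 h2; omega
    · intro j h1 h2; omega
    · intro j h1 h2; omega
    · intro l _; rfl
    · intro l _ h; exact h
    · intro j h1 h2 l h3 h4
      have : j = s := by omega
      subst this
      have e1 := P.hLK j
      omega
  | succ k ih => exact ih.step (Nat.le_add_right s k) hY1 hY2 hgood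

lemma stage_succ_1 {m : ℤ} {Yf : ℕ → ℤ} {k : ℕ} {v : ℤ} (hv : v.natAbs < 2 * P.L (s + k)) :
    (stage P s m Yf (k + 1)).1 v ↔ (stage P s m Yf k).1 v := stp_old hv

lemma stage_succ_2 {m : ℤ} {Yf : ℕ → ℤ} {k : ℕ} {v : ℤ} (hv : v.natAbs < 2 * P.L (s + k)) :
    (stage P s m Yf (k + 1)).2 v ↔ (stage P s m Yf k).2 v := stp_old hv

lemma stage_add_1 {m : ℤ} {Yf : ℕ → ℤ} {k : ℕ} (d : ℕ) {v : ℤ}
    (hv : v.natAbs < 2 * P.L (s + k)) :
    (stage P s m Yf (k + d)).1 v ↔ (stage P s m Yf k).1 v := by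
  induction d with
  | zero => rfl
  | succ d ih =>
    have := P.L_mono (i := s + k) (j := s + (k + d)) (by omega)
    rw [← add_assoc, stage_succ_1 (by omega), ih]

lemma stage_add_2 {m : ℤ} {Yf : ℕ → ℤ} {k : ℕ} (d : ℕ) {v : ℤ}
    (hv : v.natAbs < 2 * P.L (s + k)) :
    (stage P s m Yf (k + d)).2 v ↔ (stage P s m Yf k).2 v := by
  induction d with
  | zero => rfl
  | succ d ih =>
    have := P.L_mono (i := s + k) (j := s + (k + d)) (by omega)
    rw [← add_assoc, stage_succ_2 (by omega), ih]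

lemma lt_L (v : ℤ) {k : ℕ} (hk : v.natAbs ≤ k) : v.natAbs < 2 * P.L (s + k) := by
  have e1 := P.le_L (s + k)
  have e2 := P.hL (s + k)
  omega

/-- the limit functions -/
def lim1 (P : Par) (s : ℕ) (m : ℤ) (Yf : ℕ → ℤ) (v : ℤ) : Prop := (stage P s m Yf v.natAbs).1 v

/-- the limit functions -/
def lim2 (P : Par) (s : ℕ) (m : ℤ) (Yf : ℕ → ℤ) (v : ℤ) : Prop := (stage P s m Yf v.natAbs).2 v

lemma lim1_eq {m : ℤ} {Yf : ℕ → ℤ} {v : ℤ} {k : ℕ} (hk : v.natAbs ≤ k) :
    lim1 P s m Yf v ↔ (stage P s m Yf k).1 v := by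
  obtain ⟨d, rfl⟩ := Nat.exists_eq_add_of_le hk
  exact (stage_add_1 d (lt_L v le_rfl)).symm

lemma lim2_eq {m : ℤ} {Yf : ℕ → ℤ} {v : ℤ} {k : ℕ} (hk : v.natAbs ≤ k) :
    lim2 P s m Yf v ↔ (stage P s m Yf k).2 v := by
  obtain ⟨d, rfl⟩ := Nat.exists_eq_add_of_le hk
  exact (stage_add_2 d (lt_L v le_rfl)).symm

theorem sepB {m y : ℤ} {Yf : ℕ → ℤ} (hm : m.natAbs < 2 * P.L s)
    (hY1 : ∀ i, (P.D i : ℤ) ∣ y - Yf i) (hY2 : ∀ i, 2 * (Yf i).natAbs ≤ P.D i)
    (hgood : ∀ i, s ≤ i → (Yf i).natAbs < 5 * P.L i ∨ 90 * P.K i < (Yf i).natAbs)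
    (hlarge : 90 * P.K s < (Yf s).natAbs) :
    P.T1.Sep s y m (lim1 P s m Yf) := by
  have hLeq : ∀ j, P.T1.L j = P.L j := fun _ => rfl
  have hinv := stage_inv (m := m) hY1 hY2 hgood hlarge
  -- c1
  have c1f : ∀ l : ℤ, l.natAbs < 2 * P.L s → (lim1 P s m Yf l ↔ l = m) := fun l hl =>
    (hinv l.natAbs).c1f l hl
  have c1g : ∀ l : ℤ, l.natAbs < 2 * P.L s → ¬ lim2 P s m Yf l := fun l hl =>
    (hinv l.natAbs).c1g l hl
  -- relation
  have hrel : ∀ u : ℤ, lim1 P s m Yf (u - y) ↔ lim2 P s m Yf u := by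
    intro u
    obtain ⟨k, hk1, hk2, hk3⟩ : ∃ k : ℕ, u.natAbs ≤ k ∧ (u - y).natAbs ≤ k ∧
        2 * y.natAbs ≤ k := ⟨u.natAbs + (u - y).natAbs + 2 * y.natAbs, by omega, by omega,
          by omega⟩
    have hYk : Yf (s + k) = y := by
      have h1 := hY1 (s + k)
      have h2 := hY2 (s + k)
      have e1 := P.hLK (s + k)
      have e2 := P.hKD' (s + k)
      have e3 := P.le_L (s + k)
      have e4 := P.hL (s + k)
      have h3 := eq_zero_of_dvd h1 (by omega)
      omega
    rw [lim1_eq hk2, lim2_eq hk1]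
    have h1 := (hinv k).c4 (s + k) (by omega) le_rfl (u - y) (lt_L _ hk2) (by
      rw [hYk, sub_add_cancel]; exact lt_L _ hk1)
    rw [hYk, sub_add_cancel] at h1
    exact h1
  -- windows
  have hwin : ∀ {n : ℤ} {s' : ℕ}, n ∈ P.T1.R s' → s' < s →
      (0 < n ∧ n < P.L s) ∨ ∃ j, s ≤ j ∧ lam j = s' ∧ n ∈ P.W j := by
    intro n s' hn hs
    obtain ⟨j, hj, hn⟩ := P.mem_T1.1 hn
    rcases Nat.lt_or_ge j s with h | h
    · left
      have e1 := P.hDL j s h
      have e2 := P.hKD' j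
      have e3 := P.hLK j
      have e4 := P.hL j
      have a1 := hn.2.1
      have a2 := hn.2.2.1
      omega
    · exact Or.inr ⟨j, h, hj, hn⟩
  have lowf : ∀ {n v : ℤ} {s' : ℕ}, n ∈ P.T1.R s' → s' < s → (v - n).natAbs < P.L s →
      (v.natAbs < 2 * P.L s ∨ ¬ lim1 P s m Yf v) := by
    intro n v s' hn hs hv
    rcases hwin hn hs with h | ⟨j, hj1, hj2, hj3⟩
    · left; omega
    · right
      obtain ⟨k, hk1, hk2⟩ : ∃ k : ℕ, v.natAbs ≤ k ∧ j < k :=
        ⟨v.natAbs + j + 1, by omega, by omega⟩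
      rw [lim1_eq hk1]
      exact (hinv k).hf.c3 j hj1 (by omega) (by omega) n hj3 v (by omega)
  have lowg : ∀ {n v : ℤ} {s' : ℕ}, n ∈ P.T1.R s' → s' < s → (v - n).natAbs < P.L s →
      (v.natAbs < 2 * P.L s ∨ ¬ lim2 P s m Yf v) := by
    intro n v s' hn hs hv
    rcases hwin hn hs with h | ⟨j, hj1, hj2, hj3⟩
    · left; omega
    · right
      obtain ⟨k, hk1, hk2⟩ : ∃ k : ℕ, v.natAbs ≤ k ∧ j < k :=
        ⟨v.natAbs + j + 1, by omega, by omega⟩
      rw [lim2_eq hk1]
      exact (hinv k).hg.c3 j hj1 (by omega) (by omega) n hj3 v (by omega)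
  have highf : ∀ {n v : ℤ} {s' : ℕ}, n ∈ P.T1.R s' → s ≤ s' → (v - n).natAbs < 2 * P.L s' →
      (lim1 P s m Yf v ↔ lim1 P s m Yf (v - n)) := by
    intro n v s' hn hs hv
    obtain ⟨j, hj, hjn⟩ := P.mem_T1.1 hn
    have hj0 := lam_lt hjn.1
    obtain ⟨k, hk1, hk2, hk3⟩ : ∃ k : ℕ, v.natAbs ≤ k ∧ (v - n).natAbs ≤ k ∧ j < k :=
      ⟨v.natAbs + (v - n).natAbs + j + 1, by omega, by omega, by omega⟩
    rw [lim1_eq hk1, lim1_eq hk2]
    exact (hinv k).hf.c2 j (by omega) (by omega) (by omega) n hjn v (by rw [hj]; exact hv)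
  have highg : ∀ {n v : ℤ} {s' : ℕ}, n ∈ P.T1.R s' → s ≤ s' → (v - n).natAbs < 2 * P.L s' →
      (lim2 P s m Yf v ↔ lim2 P s m Yf (v - n)) := by
    intro n v s' hn hs hv
    obtain ⟨j, hj, hjn⟩ := P.mem_T1.1 hn
    have hj0 := lam_lt hjn.1
    obtain ⟨k, hk1, hk2, hk3⟩ : ∃ k : ℕ, v.natAbs ≤ k ∧ (v - n).natAbs ≤ k ∧ j < k :=
      ⟨v.natAbs + (v - n).natAbs + j + 1, by omega, by omega, by omega⟩
    rw [lim2_eq hk1, lim2_eq hk2]
    exact (hinv k).hg.c2 j (by omega) (by omega) (by omega) n hjn v (by rw [hj]; exact hv)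
  have hsmall : ∀ {s' : ℕ}, s' < s → 2 * P.L s' < P.L s := by
    intro s' hs
    have e1 := P.hDL s' s hs
    have e2 := P.hKD' s'
    have e3 := P.hLK s'
    have e4 := P.hL s'
    omega
  have hRh : ∀ u, ∀ n, ∀ s', n ∈ P.T1.R s' → ¬ P.T1.IsChild u → s ≤ s' →
      P.L s ≤ (u - n).natAbs := by
    intro u n s' hn hu hs
    by_contra hcon
    refine hu ⟨(n, s'), hn, ?_⟩
    rw [hLeq]
    have := P.L_mono hs
    simp only
    omega
  refine ⟨?_, ?_, ?_, ?_, ?_, ?_, ?_⟩
  · -- ic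
    intro u n s' hc
    have hl := hc.2
    rw [hLeq] at hl
    rw [hrel, hrel]
    rcases lt_or_ge s' s with hs | hs
    · have h1 := hsmall hs
      refine iff_of_false ?_ (c1g _ (by omega))
      rcases lowg hc.1 hs (show (u - n).natAbs < P.L s by omega) with h2 | h2
      · exact c1g _ h2
      · exact h2
    · exact highg hc.1 hs hl
  · -- ir
    intro u hu h
    rw [hrel] at h
    rw [hLeq]
    refine RS.le_ht ?_ ?_
    · by_contra hcon
      exact c1g u (by omega) h
    · intro s' n hn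
      rcases lt_or_ge s' s with hs | hs
      · by_contra hcon
        rcases lowg hn hs (show (u - n).natAbs < P.L s by omega) with h2 | h2
        · exact c1g _ h2 h
        · exact h2 h
      · exact hRh u n s' hn hu hs
  · -- mm
    exact (c1f m hm).2 rfl
  · -- mc
    intro n s' hc h
    have hl := hc.lt
    have hp := P.T1.pos s' n hc.1
    have := (c1f (m - n) (by omega)).1 h
    omega
  · -- hi
    intro v n s' hvm hc hs
    exact highf hc.1 hs hc.2
  · -- lo
    intro v n s' hvm hc hs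
    have hl := hc.2
    rw [hLeq] at hl
    have h1 := hsmall hs
    refine ⟨?_, c1f (v - n) (by omega)⟩
    rcases lowf hc.1 hs (show (v - n).natAbs < P.L s by omega) with h2 | h2
    · intro h3
      exact hvm ((c1f v h2).1 h3)
    · exact h2
  · -- ro
    intro v hvm hv h
    rw [hLeq]
    refine RS.le_ht ?_ ?_
    · by_contra hcon
      exact hvm ((c1f v (by omega)).1 h)
    · intro s' n hn
      rcases lt_or_ge s' s with hs | hs
      · by_contra hcon
        rcases lowf hn hs (show (v - n).natAbs < P.L s by omega) with h2 | h2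
        · exact hvm ((c1f v h2).1 h)
        · exact h2 h
      · exact hRh v n s' hn hv hs

end

end Par

end Pool.Agent.Y286.RR
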