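import Pool.Agent.Y286.RR.Gen
import Pool.Agent.Y286.RR.FL
import Pool.Agent.Y286.RR.SepA
import Pool.Agent.Y286.RR.SepB

set_option autoImplicit false

/-! The counterexample. -/

namespace Pool.Agent.Y286.RR

open Filter Topology Set Pool.Agent.TH270.Rec

open Gen (IsReit isReit_iff span_subset)

/-- strictly increasing sequences -/
abbrev SM : Type := {κ : ℕ → ℕ // StrictMono κ}

/-- indices -/
abbrev Idx : Type := Option (SM × Set (ℕ → ℝ))

section
variable (P : Par)

/-- the reset systems -/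
def sys : Idx → RS
  | none => P.T0
  | some p => (P.sub p.1.1 p.1.2).T1

lemma sys_posBD (i : Idx) (s : ℕ) : PosBD {n : ℕ | (n : ℤ) ∈ (sys P i).R s} := by
  cases i with
  | none => exact P.posBD_T0 s
  | some p => exact (P.sub p.1.1 p.1.2).posBD_T1 s

lemma sys_strictMono (i : Idx) : StrictMono (sys P i).L := by
  cases i with
  | none => exact P.strictMono_L
  | some p => exact (P.sub p.1.1 p.1.2).strictMono_L

/-- the space -/
abbrev XX : Type := lp (fun _ : Idx => Y) 1

/-- the operator -/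
noncomputable def TT : XX →L[ℝ] XX := dsum (fun i => (sys P i).op) 8 (fun _ => RS.norm_op_le)

open scoped Classical in
/-- vectors of the `i`-th summand -/
noncomputable def emb (i : Idx) (w : Y) : XX := lp.single 1 i w

lemma emb_apply_self (i : Idx) (w : Y) : emb i w i = w := by
  classical
  exact lp.single_apply_self _ _ _

lemma emb_apply_ne {i j : Idx} (h : j ≠ i) (w : Y) : emb i w j = 0 := by
  classical
  exact lp.single_apply_ne _ _ _ h

lemma TT_pow_emb (n : ℕ) (i : Idx) (w : Y) :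
    (TT P ^ n) (emb i w) = emb i (((sys P i).op ^ n) w) := by
  classical
  exact dsum_pow_single (fun i => (sys P i).op) 8 (fun _ => RS.norm_op_le) n i w

lemma TT_pow_apply (n : ℕ) (x : XX) (i : Idx) : (TT P ^ n) x i = ((sys P i).op ^ n) (x i) :=
  dsum_pow_apply _ _ _ _ _ _

lemma norm_emb (i : Idx) (w : Y) : ‖emb i w‖ = ‖w‖ := by
  classical
  exact lp.norm_single (E := fun _ : Idx => Y) (p := 1) (by simp) i w

lemma emb_sub (i : Idx) (w w' : Y) : emb i (w - w') = emb i w - emb i w' := by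
  classical
  exact lp.single_sub (E := fun _ : Idx => Y) 1 i w w'

lemma iterate_eq (n : ℕ) (x : XX) : (TT P)^[n] x = (TT P ^ n) x := by
  induction n generalizing x with
  | zero => rfl
  | succ n ih => rw [Function.iterate_succ_apply, ih, pow_succ, mul_apply_eq_comp]

lemma posBD_mono {A B : Set ℕ} (h : A ⊆ B) (hA : PosBD A) : PosBD B := by
  classical
  obtain ⟨δ, hδ, H⟩ := hA
  refine ⟨δ, hδ, fun N => ?_⟩
  obtain ⟨a, L, h1, h2, h3⟩ := H N
  refine ⟨a, L, h1, h2, h3.trans (Nat.cast_le.2 (Finset.card_le_card fun k hk => ?_))⟩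
  have hk' := (@Finset.mem_filter _ _ (_) _ _).1 hk
  exact (@Finset.mem_filter _ _ (_) _ _).2 ⟨hk'.1, h hk'.2⟩

lemma isReit_dl (i : Idx) (v : ℤ) : IsReit (TT P) (emb i ((sys P i).dl eb v)) := by
  rw [isReit_iff]
  intro G hG hx
  obtain ⟨ε, hε, hball⟩ := Metric.isOpen_iff.1 hG _ hx
  have hmono := sys_strictMono P i
  -- choose the level
  obtain ⟨c, hc⟩ := exists_pow_lt_of_lt_one hε (show (1 / 4 : ℝ) < 1 by norm_num)
  set s := v.natAbs + c + 1 with hs
  have hLs : s ≤ (sys P i).L s := hmono.le_apply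
  refine posBD_mono ?_ (sys_posBD P i s)
  intro n hn
  have hn : (n : ℤ) ∈ (sys P i).R s := hn
  show (TT P)^[n] _ ∈ G
  rw [iterate_eq]
  refine hball ?_
  rw [Metric.mem_ball, dist_eq_norm, TT_pow_emb, RS.op_pow_dl, ← emb_sub, norm_emb]
  have hch : (sys P i).child (v + n) n s := ⟨hn, by omega⟩
  rw [RS.dl_child eb hch, add_sub_cancel_right, add_sub_cancel_right, norm_smul,
    Real.norm_of_nonneg (RS.ell_pos _).le]
  have h1 : (sys P i).ell (v + n) ≤ (1 / 4) ^ c := by
    rw [RS.ell_child hch, add_sub_cancel_right]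
    have h2 : (1 / 4 : ℝ) ^ c = 4 ^ (-(c : ℤ)) := by
      rw [zpow_neg, zpow_natCast, one_div, inv_pow]
    rw [h2]
    exact zpow_le_zpow_right₀ (by norm_num) (by omega)
  calc (sys P i).ell (v + n) * ‖eb (v + n)‖ ≤ (1 / 4) ^ c * 1 := by
        gcongr
        exact norm_eb_le _
    _ < ε := by rw [mul_one]; exact hc

lemma TT_dense : Dense {x : XX | IsReit (TT P) x} := by
  classical
  set S : Set XX := {x | ∃ i v, x = emb i ((sys P i).dl eb v)} with hS
  have h1 := span_subset (TT P) S (by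
    rintro x ⟨i, v, rfl⟩
    exact isReit_dl P i v)
  set V : Submodule ℝ XX := (Submodule.span ℝ S).topologicalClosure with hV
  have hVc : IsClosed (V : Set XX) := Submodule.isClosed_topologicalClosure _
  have h2 : ∀ i v, emb i (eb v) ∈ V := by
    intro i v
    have h3 : ∀ v, emb i ((sys P i).dl eb v) ∈ V := fun v =>
      Submodule.le_topologicalClosure _ (Submodule.subset_span ⟨i, v, rfl⟩)
    have hpos := (sys P i).ell_pos v
    have hsm : ∀ (c : ℝ) (w : Y), emb i (c • w) = c • emb i w := fun c w => lp.single_smul _ _ _ _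
    by_cases h : (sys P i).IsChild v
    · obtain ⟨⟨n, s⟩, h⟩ := h
      simp only at h
      have h4 : eb v = ((sys P i).ell v)⁻¹ • ((sys P i).dl eb v - (sys P i).dl eb (v - n)) := by
        rw [RS.dl_child eb h, add_sub_cancel_right, smul_smul, inv_mul_cancel₀ hpos.ne', one_smul]
      rw [h4, hsm, emb_sub]
      exact V.smul_mem _ (V.sub_mem (h3 _) (h3 _))
    · have h4 : eb v = ((sys P i).ell v)⁻¹ • (sys P i).dl eb v := by
        rw [RS.dl_root eb h, smul_smul, inv_mul_cancel₀ hpos.ne', one_smul]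
      rw [h4, hsm]
      exact V.smul_mem _ (h3 _)
  have h3 : ∀ i (w : Y), emb i w ∈ V := by
    intro i w
    have h4 : HasSum (fun v => emb i (w v • eb v)) (emb i w) :=
      (lp.singleContinuousLinearMap ℝ (fun _ : Idx => Y) 1 i).hasSum (hasSum_eb w)
    refine hVc.mem_of_tendsto h4 (Filter.Eventually.of_forall fun F => ?_)
    refine V.sum_mem fun v _ => ?_
    have hsm : ∀ (c : ℝ) (w : Y), emb i (c • w) = c • emb i w := fun c w => lp.single_smul _ _ _ _
    rw [hsm]
    exact V.smul_mem _ (h2 i v)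
  have h4 : ∀ x : XX, x ∈ V := by
    intro x
    have h5 := lp.hasSum_single (p := 1) ENNReal.one_ne_top x
    refine hVc.mem_of_tendsto h5 (Filter.Eventually.of_forall fun F => ?_)
    refine V.sum_mem fun i _ => ?_
    have h6 := h3 i (x i)
    unfold emb at h6
    convert h6
  intro x
  have h5 : x ∈ closure ((Submodule.span ℝ S : Submodule ℝ XX) : Set XX) := h4 x
  have h6 := closure_mono h1 h5
  rwa [closure_closure] at h6

end

/-- nearest multiples -/
lemma exists_rep (D : ℕ) (hD : 0 < D) (y : ℤ) : ∃ Y : ℤ, (D : ℤ) ∣ y - Y ∧ 2 * Y.natAbs ≤ D := by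
  have h1 := Int.emod_nonneg y (show (D : ℤ) ≠ 0 by omega)
  have h2 := Int.emod_lt_of_pos y (show (0 : ℤ) < D by omega)
  have h3 : (D : ℤ) ∣ y - y % D := Int.dvd_self_sub_emod
  by_cases h : 2 * (y % D) ≤ D
  · exact ⟨y % D, h3, by omega⟩
  · refine ⟨y % D - D, ?_, by omega⟩
    have : y - (y % D - D) = (y - y % D) + D := by ring
    rw [this]
    exact dvd_add h3 (dvd_refl _)

/-- few integers of an interval of length `D` are close to multiples of `D` -/
lemma card_near (D c m : ℕ) (A : Set ℕ) (hA : ∀ n ∈ A, m ≤ n ∧ n < m + D ∧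
    ∃ k : ℤ, ((n : ℤ) - k * D).natAbs < c) : A.ncard ≤ 2 * c := by
  have h1 : Set.MapsTo (fun n => (n + c) % D) A (Finset.range (2 * c) : Set ℕ) := by
    intro n hn
    obtain ⟨h1, h2, k, hk⟩ := hA n hn
    simp only [Finset.coe_range, Set.mem_Iio]
    have h3 : (((n + c) % D : ℕ) : ℤ) < 2 * c := by
      push_cast
      have h4 : ((n : ℤ) + c) % D = ((n : ℤ) + c - k * D) % D := by
        rw [Int.sub_mul_emod_self_right]
      rw [h4]
      obtain ⟨r, hr⟩ : ∃ r : ℕ, (n : ℤ) + c - k * D = r :=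
        Int.eq_ofNat_of_zero_le (by omega)
      rw [hr]
      have h5 : ((r : ℤ) % D) ≤ r := by exact_mod_cast Nat.mod_le r D
      omega
    exact_mod_cast h3
  have h2 : Set.InjOn (fun n => (n + c) % D) A := by
    intro a ha b hb hab
    obtain ⟨a1, a2, -⟩ := hA a ha
    obtain ⟨b1, b2, -⟩ := hA b hb
    simp only at hab
    have h3 : a ≡ b [MOD D] := Nat.ModEq.add_right_cancel' c hab
    have h4 : (D : ℤ) ∣ (b : ℤ) - a := (Nat.modEq_iff_dvd).1 h3
    have h5 := Par.eq_zero_of_dvd h4 (by omega)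
    omega
  have h3 := Set.ncard_le_ncard_of_injOn _ h1 h2 (Finset.finite_toSet _)
  rwa [Set.ncard_coe_finset, Finset.card_range] at h3

theorem main (P : Par) :
    ¬ ∃ M : Submodule ℝ XX, Dense (M : Set XX) ∧ ∀ x ∈ M, IsReit (TT P) x := by
  classical
  rintro ⟨M, hMd, hMr⟩
  have hev : ∀ v : ℤ, ∀ w : Y, |w v| ≤ ‖w‖ := fun v w => by
    have := lp.norm_apply_le_norm (p := 1) (by simp) w v
    simpa [Real.norm_eq_abs] using this
  have hcomp : ∀ (x : XX) (i : Idx), ‖x i‖ ≤ ‖x‖ := fun x i =>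
    lp.norm_apply_le_norm (p := 1) (by simp) x i
  -- the first vector
  obtain ⟨d0, hd0M, hd0⟩ := Metric.dense_iff.1 hMd (emb none (eb 0)) (1 / 4) (by norm_num)
  have hd0M : d0 ∈ Metric.ball (emb none (eb 0)) (1 / 4) := hd0M
  have hd0 : d0 ∈ M := hd0
  obtain ⟨c, hc⟩ : ∃ c : Y, c = d0 none := ⟨_, rfl⟩
  have hc0 : c 0 ≠ 0 := by
    intro h0
    rw [Metric.mem_ball, dist_eq_norm] at hd0M
    have h1 := (hcomp (d0 - emb none (eb 0)) none).trans_lt hd0M
    rw [lp.coeFn_sub, Pi.sub_apply, emb_apply_self, ← hc] at h1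
    have h2 := (hev 0 (c - eb 0)).trans_lt h1
    rw [lp.coeFn_sub, Pi.sub_apply, eb_apply_self, h0] at h2
    norm_num at h2
  -- good scales
  set G : Set ℕ := {κ | ∀ y : ℕ, ‖(P.T0.op ^ y) c‖ ≤ ‖c‖ + 1 → ∀ k : ℤ,
    ¬ (5 * P.L κ ≤ ((y : ℤ) - k * P.D κ).natAbs ∧
      ((y : ℤ) - k * P.D κ).natAbs ≤ 90 * P.K κ)} with hG
  have hGinf : G.Infinite := by
    intro hfin
    obtain ⟨s0, hs0⟩ := hfin.bddAbove
    have hbad : ∀ κ, s0 + 1 ≤ κ → ∃ y : ℕ, ‖(P.T0.op ^ y) c‖ ≤ ‖c‖ + 1 ∧ ∃ k : ℤ,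
        5 * P.L κ ≤ ((y : ℤ) - k * P.D κ).natAbs ∧
        ((y : ℤ) - k * P.D κ).natAbs ≤ 90 * P.K κ := by
      intro κ hκ
      by_contra hcon
      push Not at hcon
      have h1 : κ ∈ G := by
        intro y hy k hk
        have := hcon y hy k hk.1
        omega
      have := hs0 h1
      omega
    have h1 := RS.FL (S := P.T0) P.strictMono_L (fun v => c v / P.T0.ell v)
      (C := ‖c‖ + 1 + ‖c‖) (by positivity) (s0 + 1) (by
        intro s hs m hm
        obtain ⟨y, hy, k, hk1, hk2⟩ := hbad s hs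
        exact (P.sepA hm hk1 hk2).est c hy) 0
    have h2 : c 0 / P.T0.ell 0 = 0 := h1
    rw [RS.ell_zero, div_one] at h2
    exact hc0 h2
  obtain ⟨κ, hκ, hκG⟩ : ∃ κ : ℕ → ℕ, StrictMono κ ∧ ∀ i, κ i ∈ G :=
    ⟨Nat.nth (· ∈ G), Nat.nth_strictMono hGinf, fun i => Nat.nth_mem_of_infinite hGinf i⟩
  set P' := P.sub κ hκ with hP'
  -- the vectors `v β`
  have hv : ∀ β : Set (ℕ → ℝ), ∃ w : XX, w ∈ M ∧ ‖w - emb (some (⟨κ, hκ⟩, β)) (eb 0)‖ < 1 / 4 := by
    intro β
    obtain ⟨w, hw, hw'⟩ := Metric.dense_iff.1 hMd (emb (some (⟨κ, hκ⟩, β)) (eb 0)) (1 / 4)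
      (by norm_num)
    rw [Metric.mem_ball, dist_eq_norm] at hw
    exact ⟨w, hw', hw⟩
  choose v hvM hvn using hv
  -- the countable set of indices
  set S0 : Set Idx := {none} ∪ {i | d0 i ≠ 0} with hS0
  have hS0c : S0.Countable := by
    refine (Set.countable_singleton _).union ?_
    have h1 := (l1_summable d0).countable_support
    refine h1.mono fun i hi => ?_
    rw [Function.mem_support]
    exact norm_ne_zero_iff.2 hi
  have : Countable S0 := hS0c.to_subtype
  obtain ⟨enc, henc⟩ := exists_injective_nat (S0 × ℤ)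
  have hninj := Function.cantor_injective (fun β : Set (ℕ → ℝ) =>
    (Function.extend enc (fun p : S0 × ℤ => (v β (p.1 : Idx)) p.2) 0 : ℕ → ℝ))
  rw [Function.not_injective_iff] at hninj
  obtain ⟨β, γ, hβγ, hne⟩ := hninj
  have hagree : ∀ i ∈ S0, v β i = v γ i := by
    intro i hi
    apply lp.ext
    funext w
    have h1 := congrFun hβγ (enc (⟨i, hi⟩, w))
    simp only [henc.extend_apply] at h1
    exact h1
  set i1 : Idx := some (⟨κ, hκ⟩, β) with hi1
  have hneq : i1 ≠ some (⟨κ, hκ⟩, γ) := by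
    intro h
    rw [hi1, Option.some_inj, Prod.mk.injEq] at h
    exact hne h.2
  have hb1 : |v β i1 0 - 1| < 1 / 4 := by
    have h1 := (hcomp _ i1).trans_lt (hvn β)
    rw [lp.coeFn_sub, Pi.sub_apply, emb_apply_self] at h1
    have h2 := (hev 0 _).trans_lt h1
    rwa [lp.coeFn_sub, Pi.sub_apply, eb_apply_self] at h2
  have hb2 : |v γ i1 0| < 1 / 4 := by
    have h1 := (hcomp _ i1).trans_lt (hvn γ)
    rw [lp.coeFn_sub, Pi.sub_apply, emb_apply_ne hneq, sub_zero] at h1
    exact (hev 0 _).trans_lt h1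
  have hi1S : i1 ∉ S0 := by
    intro h
    rw [hagree i1 h, abs_lt] at hb1
    rw [abs_lt] at hb2
    linarith [hb1.1, hb2.2]
  -- the vector `x`
  set x : XX := d0 + (v β - v γ) with hx
  have hxM : x ∈ M := M.add_mem hd0 (M.sub_mem (hvM β) (hvM γ))
  have hxnone : x none = c := by
    have h1 : (none : Idx) ∈ S0 := Or.inl rfl
    rw [hx, lp.coeFn_add, Pi.add_apply, lp.coeFn_sub, Pi.sub_apply, hagree none h1, sub_self,
      add_zero, hc]
  have hxi1 : x i1 0 ≠ 0 := by
    have h1 : d0 i1 = 0 := by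
      by_contra h
      exact hi1S (Or.inr h)
    have h2 : x i1 = v β i1 - v γ i1 := by
      rw [hx, lp.coeFn_add, Pi.add_apply, lp.coeFn_sub, Pi.sub_apply, h1, zero_add]
    rw [h2, lp.coeFn_sub, Pi.sub_apply]
    rw [abs_lt] at hb1 hb2
    intro h3
    linarith [hb1.1, hb2.2]
  -- return times
  obtain ⟨δ, hδ, hret⟩ := hMr x hxM (Metric.ball x 1) (Metric.ball_mem_nhds x one_pos)
  have hR : ∀ n : ℕ, (TT P)^[n] x ∈ Metric.ball x 1 →
      (∀ i, ∀ k : ℤ, ¬ (5 * P'.L i ≤ ((n : ℤ) - k * P'.D i).natAbs ∧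
        ((n : ℤ) - k * P'.D i).natAbs ≤ 90 * P'.K i)) ∧
      ‖(P'.T1.op ^ n) (x i1)‖ ≤ ‖x i1‖ + 1 := by
    intro n hn
    rw [iterate_eq, Metric.mem_ball, dist_eq_norm] at hn
    constructor
    · intro i k
      refine hκG i n ?_ k
      have h1 := (hcomp _ none).trans_lt hn
      rw [lp.coeFn_sub, Pi.sub_apply, TT_pow_apply, hxnone] at h1
      have h2 : ‖(P.T0.op ^ n) c - c‖ < 1 := h1
      have h3 := norm_sub_norm_le ((P.T0.op ^ n) c) c
      linarith
    · have h1 := (hcomp _ i1).trans_lt hn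
      rw [lp.coeFn_sub, Pi.sub_apply, TT_pow_apply] at h1
      have h2 : ‖(P'.T1.op ^ n) (x i1) - x i1‖ < 1 := h1
      have h3 := norm_sub_norm_le ((P'.T1.op ^ n) (x i1)) (x i1)
      linarith
  -- large scales
  obtain ⟨s0, hs0⟩ := exists_pow_lt_of_lt_one hδ (show (1 / 2 : ℝ) < 1 by norm_num)
  have h1 := RS.FL (S := P'.T1) P'.strictMono_L (fun v => x i1 v / P'.T1.ell v)
    (C := ‖x i1‖ + 1 + ‖x i1‖) (by positivity) s0 (by
      intro s hs m hm
      have hDpos : ∀ i, 0 < P'.D i := by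
        intro i
        have e1 := P'.hLK i
        have e2 := P'.hKD' i
        have e3 := P'.hL i
        omega
      -- a return time with large residue
      obtain ⟨n, hn, hnl⟩ : ∃ n : ℕ, (TT P)^[n] x ∈ Metric.ball x 1 ∧
          ∀ k : ℤ, 5 * P'.L s ≤ ((n : ℤ) - k * P'.D s).natAbs := by
        by_contra hcon
        push Not at hcon
        obtain ⟨a, ha⟩ := hret (P'.D s) (hDpos s)
        have h2 := card_near (P'.D s) (5 * P'.L s) a
          {n : ℕ | a ≤ n ∧ n < a + P'.D s ∧ (TT P)^[n] x ∈ Metric.ball x 1}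
          (fun n hn => ⟨hn.1, hn.2.1, hcon n hn.2.2⟩)
        have h3 : δ * (P'.D s : ℝ) ≤ ((2 * (5 * P'.L s) : ℕ) : ℝ) :=
          ha.trans (by exact_mod_cast h2)
        push_cast at h3
        have h4 : (2 : ℝ) ^ (s + 12) * P'.K s ≤ P'.D s := by exact_mod_cast P'.hKD s
        have h5 : (1000 : ℝ) * P'.L s ≤ P'.K s := by exact_mod_cast P'.hLK s
        have h6 : (1 : ℝ) ≤ P'.L s := by exact_mod_cast P'.hL s
        have h7 : (1 / 2 : ℝ) ^ s < δ :=
          lt_of_le_of_lt (pow_le_pow_of_le_one (by norm_num) (by norm_num) hs) hs0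
        have h8 : (1 : ℝ) < δ * 2 ^ s := by
          have : (1 / 2 : ℝ) ^ s * 2 ^ s = 1 := by
            rw [← mul_pow]; norm_num
          nlinarith [show (0 : ℝ) < 2 ^ s by positivity]
        have h9 : δ * 2 ^ (s + 12) * P'.K s ≤ 10 * P'.L s := by
          calc δ * 2 ^ (s + 12) * P'.K s = δ * (2 ^ (s + 12) * P'.K s) := by ring
            _ ≤ δ * P'.D s := mul_le_mul_of_nonneg_left h4 hδ.le
            _ ≤ _ := by linarith
        have h10 : (P'.K s : ℝ) ≤ δ * 2 ^ (s + 12) * P'.K s := by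
          have h11 : (1 : ℝ) ≤ δ * 2 ^ (s + 12) := by
            rw [pow_add]
            nlinarith
          nlinarith
        linarith
      obtain ⟨hn1, hn2⟩ := hR n hn
      have hY := fun i => exists_rep (P'.D i) (hDpos i) n
      choose Yf hY1 hY2 using hY
      have hgood : ∀ i, (Yf i).natAbs < 5 * P'.L i ∨ 90 * P'.K i < (Yf i).natAbs := by
        intro i
        obtain ⟨k, hk⟩ := hY1 i
        have h2 := hn1 i k
        have h3 : (n : ℤ) - k * P'.D i = Yf i := by
          rw [mul_comm, ← hk]; ring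
        rw [h3] at h2
        omega
      have hlarge : 90 * P'.K s < (Yf s).natAbs := by
        obtain ⟨k, hk⟩ := hY1 s
        have h2 := hnl k
        have h3 : (n : ℤ) - k * P'.D s = Yf s := by
          rw [mul_comm, ← hk]; ring
        rw [h3] at h2
        have := hgood s
        omega
      exact (Par.sepB (P := P') (s := s) (m := m) (y := (n : ℤ)) (Yf := Yf) hm hY1 hY2
        (fun i _ => hgood i) hlarge).est (x i1) hn2) 0
  have h2 : x i1 0 / P'.T1.ell 0 = 0 := h1
  rw [RS.ell_zero, div_one] at h2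
  exact hxi1 h2

end Pool.Agent.Y286.RR
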