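import Pool.Agent.Y286.RR.Sys
import Pool.Agent.TH270.Rec.Defs

set_option autoImplicit false

/-! Parameters, the two families of reset systems, and the density of their resets. -/

namespace Pool.Agent.Y286.RR

open Filter Topology Set Pool.Agent.TH270.Rec

/-- fast growing sequences of scales -/
structure Par where
  /-- radii -/
  L : ℕ → ℕ
  /-- positions -/
  K : ℕ → ℕ
  /-- moduli -/
  D : ℕ → ℕ
  hL : ∀ i, 1 ≤ L i
  hLK : ∀ i, 1000 * L i ≤ K i
  hKD : ∀ i, 2 ^ (i + 12) * K i ≤ D i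
  hDL : ∀ i j, i < j → D i ≤ L j
  hDK : ∀ i j, i < j → D i ∣ K j
  hDD : ∀ i j, i ≤ j → D i ∣ D j

/-- the level used by the `i`-th window -/
def lam (i : ℕ) : ℕ := (Nat.unpair i).1

lemma lam_lt {i : ℕ} (h : 1 ≤ i) : lam i < i := Nat.unpair_lt h

lemma lam_pair (s t : ℕ) : lam (Nat.pair s t) = s := by rw [lam, Nat.unpair_pair]

namespace Par

/-- the standard parameters -/
def std : Par where
  L i := 2 ^ (20 * (3 * i + 1) ^ 2)
  K i := 2 ^ (20 * (3 * i + 2) ^ 2)
  D i := 2 ^ (20 * (3 * i + 3) ^ 2)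
  hL i := Nat.one_le_two_pow
  hLK i := by
    have h1 : 20 * (3 * i + 2) ^ 2 = (20 * (6 * i + 3)) + 20 * (3 * i + 1) ^ 2 := by ring
    rw [h1, pow_add]
    refine Nat.mul_le_mul_right _ ?_
    calc 1000 ≤ 2 ^ 10 := by norm_num
      _ ≤ _ := Nat.pow_le_pow_right (by norm_num) (by omega)
  hKD i := by
    rw [← pow_add]
    refine Nat.pow_le_pow_right (by norm_num) ?_
    nlinarith
  hDL i j h := by
    refine Nat.pow_le_pow_right (by norm_num) (Nat.mul_le_mul_left _ (Nat.pow_le_pow_left ?_ _))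
    omega
  hDK i j h := by
    refine pow_dvd_pow _ (Nat.mul_le_mul_left _ (Nat.pow_le_pow_left ?_ _))
    omega
  hDD i j h := by
    refine pow_dvd_pow _ (Nat.mul_le_mul_left _ (Nat.pow_le_pow_left ?_ _))
    omega

/-- subsequences of parameters -/
def sub (P : Par) (κ : ℕ → ℕ) (hκ : StrictMono κ) : Par where
  L i := P.L (κ i)
  K i := P.K (κ i)
  D i := P.D (κ i)
  hL i := P.hL _
  hLK i := P.hLK _
  hKD i := by
    refine le_trans (Nat.mul_le_mul_right _ (Nat.pow_le_pow_right (by norm_num) ?_)) (P.hKD (κ i))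
    have : i ≤ κ i := hκ.le_apply
    omega
  hDL i j h := P.hDL _ _ (hκ h)
  hDK i j h := P.hDK _ _ (hκ h)
  hDD i j h := P.hDD _ _ (hκ.monotone h)

variable (P : Par)

lemma hKD' (i : ℕ) : 4096 * P.K i ≤ P.D i := by
  refine le_trans (Nat.mul_le_mul_right _ ?_) (P.hKD i)
  calc 4096 = 2 ^ 12 := by norm_num
    _ ≤ _ := Nat.pow_le_pow_right (by norm_num) (by omega)

lemma strictMono_L : StrictMono P.L := by
  intro i j h
  have h1 := P.hDL i j h
  have h2 := P.hKD' i
  have h3 := P.hLK i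
  have h4 := P.hL i
  omega

lemma L_mono {i j : ℕ} (h : i ≤ j) : P.L i ≤ P.L j := P.strictMono_L.monotone h

lemma le_L (i : ℕ) : i ≤ P.L i := P.strictMono_L.le_apply

lemma eq_zero_of_dvd {D : ℕ} {x : ℤ} (h : (D : ℤ) ∣ x) (hx : x.natAbs < D) : x = 0 := by
  refine Int.eq_zero_of_dvd_of_natAbs_lt_natAbs h ?_
  simpa using hx

/-- the resets of level `s` for windows `[a K i, b K i]` with the extra condition `Q` -/
def mkR (a b : ℕ) (Q : ℕ → ℤ → Prop) (s : ℕ) : Set ℤ :=
  {n | ∃ i, 1 ≤ i ∧ lam i = s ∧ (a : ℤ) * P.K i ≤ n ∧ n ≤ (b : ℤ) * P.K i ∧ (P.D s : ℤ) ∣ n ∧ Q i n}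

/-- the reset systems -/
def mk' (a b : ℕ) (ha : 30 ≤ a) (hb : b ≤ 300) (Q : ℕ → ℤ → Prop) : RS where
  L := P.L
  R := P.mkR a b Q
  sep := by
    have key : ∀ s s' n n' i i', 1 ≤ i → 1 ≤ i' → lam i = s → lam i' = s' → i < i' →
        (n : ℤ) ≤ (b : ℤ) * P.K i → (a : ℤ) * P.K i' ≤ n' →
        4 * P.L s < (n - n').natAbs ∧ 4 * P.L s' < (n - n').natAbs := by
      intro s s' n n' i i' hi hi' hs hs' hii h1 h2
      have e1 : (b : ℤ) * P.K i ≤ 300 * P.K i :=
        mul_le_mul_of_nonneg_right (by exact_mod_cast hb) (by positivity)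
      have e2 : 30 * (P.K i' : ℤ) ≤ (a : ℤ) * P.K i' :=
        mul_le_mul_of_nonneg_right (by exact_mod_cast ha) (by positivity)
      have e3 := P.hKD' i
      have e4 := P.hDL i i' hii
      have e5 := P.hLK i'
      have e6 := P.hL i'
      have e7 : P.L s ≤ P.L i' := P.L_mono (by have := lam_lt hi; omega)
      have e8 : P.L s' ≤ P.L i' := P.L_mono (by have := lam_lt hi'; omega)
      omega
    rintro s s' n n' ⟨i, hi, hs, h1, h2, h3, -⟩ ⟨i', hi', hs', h1', h2', h3', -⟩
    rcases lt_trichotomy i i' with h | h | h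
    · exact Or.inr (key s s' n n' i i' hi hi' hs hs' h h2 h1')
    · subst h
      have hss : s = s' := by rw [← hs, ← hs']
      subst hss
      by_cases hn : n = n'
      · exact Or.inl ⟨hn, rfl⟩
      · right
        have h4 : (P.D s : ℤ) ∣ n - n' := dvd_sub h3 h3'
        have h5 : P.D s ≤ (n - n').natAbs := by
          by_contra h6
          have := eq_zero_of_dvd h4 (not_le.1 h6)
          omega
        have e1 := P.hLK s
        have e2 := P.hKD' s
        have e3 := P.hL s
        omega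
    · have := key s' s n' n i' i hi' hi hs' hs h h2' h1
      right
      omega
  pos := by
    rintro s n ⟨i, hi, hs, h1, -⟩
    have e2 : 30 * (P.K i : ℤ) ≤ (a : ℤ) * P.K i :=
        mul_le_mul_of_nonneg_right (by exact_mod_cast ha) (by positivity)
    have e3 := P.hLK i
    have e4 := P.hL i
    have e5 : P.L s ≤ P.L i := P.L_mono (by have := lam_lt hi; omega)
    omega

/-- the avoidance condition of the first system -/
def Avoid (i : ℕ) (n : ℤ) : Prop :=
  ∀ j, lam i < j → j < i → ∀ k : ℤ, 100 * P.K j ≤ (n - k * P.D j).natAbs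

/-- the first system -/
def T0 : RS := P.mk' 200 300 (by norm_num) le_rfl P.Avoid

/-- the second system -/
def T1 : RS := P.mk' 30 45 le_rfl (by norm_num) (fun _ _ => True)

open scoped Classical in
theorem posBD_T1 (s : ℕ) : PosBD {n : ℕ | (n : ℤ) ∈ P.T1.R s} := by
  have hD : 0 < P.D s := by
    have e1 := P.hLK s
    have e2 := P.hKD' s
    have e3 := P.hL s
    omega
  refine ⟨1 / P.D s, by positivity, fun N => ?_⟩
  set i := Nat.pair s (P.D s * (N + 1) + 1) with hi
  have h1 : P.D s * (N + 1) + 1 ≤ i := Nat.right_le_pair _ _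
  have h2 : lam i = s := lam_pair _ _
  have hKi : i ≤ P.K i := (P.le_L i).trans (by have := P.hLK i; omega)
  have hsi : s < i := by
    have := lam_lt (i := i) (by omega)
    omega
  refine ⟨30 * P.K i, P.D s * (N + 1), ?_, ?_, ?_⟩
  · nlinarith
  · nlinarith
  · have h3 : ((Finset.range (N + 1)).image fun q => P.D s * q) ⊆
        (Finset.range (P.D s * (N + 1))).filter
          fun h => 30 * P.K i + h ∈ {n : ℕ | (n : ℤ) ∈ P.T1.R s} := by
      intro h hh
      rw [Finset.mem_image] at hh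
      obtain ⟨q, hq, rfl⟩ := hh
      rw [Finset.mem_range] at hq
      rw [Finset.mem_filter, Finset.mem_range]
      have h4 : P.D s * q < P.D s * (N + 1) := Nat.mul_lt_mul_of_pos_left hq hD
      refine ⟨h4, i, by omega, h2, ?_, ?_, ?_, trivial⟩
      · push_cast
        have : (0 : ℤ) ≤ (P.D s : ℤ) * q := by positivity
        linarith
      · have h5 : P.D s * q ≤ P.K i := by omega
        have h6 : 30 * P.K i + P.D s * q ≤ 45 * P.K i := by omega
        exact_mod_cast h6
      · have h7 : P.D s ∣ 30 * P.K i + P.D s * q :=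
          dvd_add ((P.hDK s i hsi).mul_left _) (dvd_mul_right _ _)
        exact_mod_cast h7
    have h4 := Finset.card_le_card h3
    rw [Finset.card_image_of_injective _ (fun a b h => Nat.eq_of_mul_eq_mul_left hD h),
      Finset.card_range] at h4
    have h5 : (1 / (P.D s : ℝ)) * ((P.D s * (N + 1) : ℕ) : ℝ) = ((N + 1 : ℕ) : ℝ) := by
      push_cast
      field_simp
    rw [h5]
    exact_mod_cast h4

open scoped Classical in
/-- counting points close to the multiples of `r` -/
lemma count_near (r c Q : ℕ) (hr : 0 < r) (hc : c ≤ r) (hrQ : r ≤ Q) :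
    (((Finset.range Q).filter fun q : ℕ => ∃ k : ℤ, ((q : ℤ) - k * r).natAbs < c).card : ℝ) ≤
      6 * c * Q / r := by
  have h1 : ((Finset.range Q).filter fun q : ℕ => ∃ k : ℤ, ((q : ℤ) - k * r).natAbs < c) ⊆
      ((Finset.range (Q / r + 2)) ×ˢ (Finset.range (2 * c))).image
        fun p : ℕ × ℕ => p.1 * r + p.2 - c := by
    intro q hq
    rw [Finset.mem_filter, Finset.mem_range] at hq
    obtain ⟨hq, k, hk⟩ := hq
    rw [Finset.mem_image]
    have hk0 : 0 ≤ k := by
      by_contra h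
      have h2 : k * r ≤ -1 * r := mul_le_mul_of_nonneg_right (by omega) (by positivity)
      omega
    obtain ⟨k, rfl⟩ := Int.eq_ofNat_of_zero_le hk0
    have hk1 : k < Q / r + 2 := by
      by_contra h
      have h2 : (Q / r + 2) * r ≤ k * r := Nat.mul_le_mul_right _ (by omega)
      have h3 := Nat.div_add_mod Q r
      have h4 := Nat.mod_lt Q hr
      have h5 : (Q / r + 2) * r = r * (Q / r) + 2 * r := by ring
      have h6 : ((k : ℤ) * r) = ((k * r : ℕ) : ℤ) := by push_cast; ring
      rw [h6] at hk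
      omega
    have h6 : ((k : ℤ) * r) = ((k * r : ℕ) : ℤ) := by push_cast; ring
    rw [h6] at hk
    refine ⟨(k, q + c - k * r), ?_, ?_⟩
    · rw [Finset.mem_product, Finset.mem_range, Finset.mem_range]
      refine ⟨hk1, ?_⟩
      show q + c - k * r < 2 * c
      omega
    · show k * r + (q + c - k * r) - c = q
      omega
  have h2 := (Finset.card_le_card h1).trans Finset.card_image_le
  rw [Finset.card_product, Finset.card_range, Finset.card_range] at h2
  have h3 : (((Finset.range Q).filter fun q : ℕ => ∃ k : ℤ, ((q : ℤ) - k * r).natAbs < c).card : ℝ) ≤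
      ((Q / r + 2 : ℕ) : ℝ) * (2 * c) := by exact_mod_cast h2
  refine h3.trans ?_
  have hr' : (0 : ℝ) < r := by exact_mod_cast hr
  have h4 : ((Q / r : ℕ) : ℝ) ≤ Q / r := Nat.cast_div_le
  have h5 : (1 : ℝ) ≤ Q / r := by
    rw [le_div_iff₀ hr', one_mul]; exact_mod_cast hrQ
  have h6 : ((Q / r + 2 : ℕ) : ℝ) ≤ 3 * (Q / r) := by
    push_cast
    linarith
  calc ((Q / r + 2 : ℕ) : ℝ) * (2 * c) ≤ 3 * (Q / r) * (2 * c) := by gcongr
    _ = _ := by ring

open scoped Classical in
theorem posBD_T0 (s : ℕ) : PosBD {n : ℕ | (n : ℤ) ∈ P.T0.R s} := by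
  have hDpos : ∀ j, 0 < P.D j := by
    intro j
    have e1 := P.hLK j
    have e2 := P.hKD' j
    have e3 := P.hL j
    omega
  have hD := hDpos s
  refine ⟨1 / (2 * P.D s), by positivity, fun N => ?_⟩
  set i := Nat.pair s (N + s + 1) with hi
  have h1 : N + s + 1 ≤ i := Nat.right_le_pair _ _
  have h2 : lam i = s := lam_pair _ _
  obtain ⟨i', hi'⟩ : ∃ i', i = i' + 1 := ⟨i - 1, by omega⟩
  have hsi : s ≤ i' := by omega
  set M := P.D i' with hM
  have hMN : N ≤ M := by
    have e1 := P.hLK i'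
    have e2 := P.hKD' i'
    have e3 := P.le_L i'
    omega
  obtain ⟨Q, hQ⟩ : P.D s ∣ M := P.hDD s i' hsi
  refine ⟨200 * P.K i, M, hMN, hDpos _, ?_⟩
  -- good residues
  set G : Finset ℕ := (Finset.range Q).filter fun q => ∀ j, s < j → j < i → ∀ k : ℤ,
    100 * P.K j ≤ (((P.D s * q : ℕ) : ℤ) - k * P.D j).natAbs with hG
  have h3 : (G.image fun q => P.D s * q) ⊆
      (Finset.range M).filter
        fun h => 200 * P.K i + h ∈ {n : ℕ | (n : ℤ) ∈ P.T0.R s} := by
    intro h hh
    rw [Finset.mem_image] at hh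
    obtain ⟨q, hq, rfl⟩ := hh
    rw [hG, Finset.mem_filter, Finset.mem_range] at hq
    obtain ⟨hq1, hq2⟩ := hq
    rw [Finset.mem_filter, Finset.mem_range]
    have h4 : P.D s * q < M := by rw [hQ]; exact Nat.mul_lt_mul_of_pos_left hq1 hD
    refine ⟨h4, i, by omega, h2, ?_, ?_, ?_, ?_⟩
    · push_cast
      have : (0 : ℤ) ≤ (P.D s : ℤ) * q := by positivity
      linarith
    · have e1 : P.D i' ≤ P.L i := P.hDL _ _ (by omega)
      have e2 := P.hLK i
      have h6 : 200 * P.K i + P.D s * q ≤ 300 * P.K i := by omega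
      exact_mod_cast h6
    · have h7 : P.D s ∣ 200 * P.K i + P.D s * q :=
        dvd_add ((P.hDK s i (by omega)).mul_left _) (dvd_mul_right _ _)
      exact_mod_cast h7
    · intro j hj1 hj2 k
      rw [h2] at hj1
      obtain ⟨c, hc⟩ : P.D j ∣ 200 * P.K i := (P.hDK j i hj2).mul_left _
      have h8 := hq2 j hj1 hj2 (k - c)
      have h9 : ((200 * P.K i + P.D s * q : ℕ) : ℤ) - k * P.D j =
          ((P.D s * q : ℕ) : ℤ) - (k - c) * P.D j := by
        rw [hc]; push_cast; ring
      rw [h9]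
      exact h8
  have h4 := Finset.card_le_card h3
  rw [Finset.card_image_of_injective _ (fun a b h => Nat.eq_of_mul_eq_mul_left hD h)] at h4
  have h4' : (G.card : ℝ) ≤ (((Finset.range M).filter
        fun h => 200 * P.K i + h ∈ {n : ℕ | (n : ℤ) ∈ P.T0.R s}).card : ℝ) := by exact_mod_cast h4
  refine le_trans ?_ h4'
  have h5 : 1 / (2 * (P.D s : ℝ)) * (M : ℝ) = Q / 2 := by
    rw [hQ]; push_cast; field_simp
  rw [h5]
  -- bad residues
  set Bd : ℕ → Finset ℕ := fun j => (Finset.range Q).filter fun q => ∃ k : ℤ,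
    (((P.D s * q : ℕ) : ℤ) - k * P.D j).natAbs < 100 * P.K j with hBd
  have h6 : (Finset.range Q) ⊆ G ∪ (Finset.Ioo s i).biUnion Bd := by
    intro q hq
    rw [Finset.mem_union]
    by_cases h7 : q ∈ G
    · exact Or.inl h7
    · right
      rw [hG, Finset.mem_filter, not_and] at h7
      have h8 := h7 hq
      push Not at h8
      obtain ⟨j, hj1, hj2, k, hk⟩ := h8
      rw [Finset.mem_biUnion]
      refine ⟨j, Finset.mem_Ioo.2 ⟨hj1, hj2⟩, ?_⟩
      rw [hBd, Finset.mem_filter]
      exact ⟨hq, k, hk⟩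
  have h7 : (Q : ℝ) ≤ G.card + ∑ j ∈ Finset.Ioo s i, ((Bd j).card : ℝ) := by
    have e1 := (Finset.card_le_card h6).trans (Finset.card_union_le _ _)
    have e2 := Finset.card_biUnion_le (s := Finset.Ioo s i) (t := Bd)
    rw [Finset.card_range] at e1
    have e3 : Q ≤ G.card + ∑ j ∈ Finset.Ioo s i, (Bd j).card := by omega
    exact_mod_cast e3
  have h8 : ∀ j ∈ Finset.Ioo s i, ((Bd j).card : ℝ) ≤ 600 / 4096 * (1 / 2) ^ j * Q := by
    intro j hj
    rw [Finset.mem_Ioo] at hj
    obtain ⟨r, hr⟩ : P.D s ∣ P.D j := P.hDD s j hj.1.le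
    obtain ⟨c, hc⟩ : P.D s ∣ 100 * P.K j := (P.hDK s j hj.1).mul_left _
    have hrpos : 0 < r := by
      rcases Nat.eq_zero_or_pos r with h | h
      · have := hDpos j
        rw [hr, h] at this
        omega
      · exact h
    have hjM : P.D j ∣ M := P.hDD j i' (by omega)
    have hQr : r ≤ Q := by
      have e1 : P.D j ≤ M := Nat.le_of_dvd (hDpos _) hjM
      rw [hr, hQ] at e1
      exact Nat.le_of_mul_le_mul_left e1 hD
    have hcr : c ≤ r := by
      have e1 : 100 * P.K j ≤ P.D j := by have := P.hKD' j; omega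
      rw [hr, hc] at e1
      exact Nat.le_of_mul_le_mul_left e1 hD
    have h9 : Bd j = (Finset.range Q).filter fun q : ℕ => ∃ k : ℤ, ((q : ℤ) - k * r).natAbs < c := by
      rw [hBd]
      refine Finset.filter_congr fun q _ => ?_
      refine exists_congr fun k => ?_
      have e1 : (((P.D s * q : ℕ) : ℤ) - k * P.D j) = (P.D s : ℤ) * ((q : ℤ) - k * r) := by
        rw [hr]; push_cast; ring
      rw [e1, hc, Int.natAbs_mul, Int.natAbs_natCast]
      exact Nat.mul_lt_mul_left hD
    rw [h9]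
    refine (count_near r c Q hrpos hcr hQr).trans ?_
    have hr' : (0 : ℝ) < r := by exact_mod_cast hrpos
    have hD' : (0 : ℝ) < P.D s := by exact_mod_cast hD
    have e2 : (c : ℝ) * (2 ^ j * 4096) ≤ 100 * r := by
      have e3 := P.hKD j
      have e4 : (2 : ℝ) ^ (j + 12) * P.K j ≤ P.D j := by exact_mod_cast e3
      have e5 : (100 : ℝ) * P.K j = P.D s * c := by exact_mod_cast hc
      have e6 : (P.D j : ℝ) = P.D s * r := by exact_mod_cast hr
      rw [e6] at e4
      have e7 : (2 : ℝ) ^ (j + 12) = 2 ^ j * 4096 := by rw [pow_add]; norm_num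
      rw [e7] at e4
      have e8 : (P.D s : ℝ) * ((c : ℝ) * (2 ^ j * 4096)) ≤ P.D s * (100 * r) := by
        calc (P.D s : ℝ) * ((c : ℝ) * (2 ^ j * 4096)) = (P.D s * c) * (2 ^ j * 4096) := by ring
          _ = 100 * (2 ^ j * 4096 * P.K j) := by rw [← e5]; ring
          _ ≤ 100 * (P.D s * r) := by linarith
          _ = _ := by ring
      exact le_of_mul_le_mul_left e8 hD'
    have e3 : (c : ℝ) / r ≤ 100 / 4096 * (1 / 2) ^ j := by
      rw [div_le_iff₀ hr']
      have h2j : (0 : ℝ) < 2 ^ j := by positivity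
      have : (1 / 2 : ℝ) ^ j = 1 / 2 ^ j := by rw [one_div_pow]
      rw [this]
      have e4 : (c : ℝ) ≤ 100 * r / (2 ^ j * 4096) := by
        rw [le_div_iff₀ (by positivity)]
        exact e2
      calc (c : ℝ) ≤ 100 * r / (2 ^ j * 4096) := e4
        _ = _ := by field_simp
    calc 6 * (c : ℝ) * Q / r = 6 * Q * (c / r) := by ring
      _ ≤ 6 * Q * (100 / 4096 * (1 / 2) ^ j) := by gcongr
      _ = _ := by ring
  have h9 : ∑ j ∈ Finset.Ioo s i, ((Bd j).card : ℝ) ≤ 600 / 4096 * 2 * Q := by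
    refine (Finset.sum_le_sum h8).trans ?_
    rw [← Finset.sum_mul, ← Finset.mul_sum]
    have e1 : ∑ j ∈ Finset.Ioo s i, (1 / 2 : ℝ) ^ j ≤ ∑ j ∈ Finset.range i, (1 / 2 : ℝ) ^ j := by
      refine Finset.sum_le_sum_of_subset_of_nonneg ?_ fun _ _ _ => by positivity
      intro j hj
      rw [Finset.mem_Ioo] at hj
      exact Finset.mem_range.2 hj.2
    have e2 := e1.trans (sum_geometric_two_le i)
    gcongr
  have hQ0 : (0 : ℝ) ≤ Q := by positivity
  linarith

end Par

end Pool.Agent.Y286.RR
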