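import Mathlib

set_option autoImplicit false

/-! Reset systems on the integers: the tree of resets. -/

namespace Pool.Agent.Y286.RR

open Filter Topology Set

/-- a system of resets: for every level `s` a radius `L s` and a set `R s` of positive integers,
any two resets being far from each other -/
structure RS where
  /-- radii -/
  L : ℕ → ℕ
  /-- resets -/
  R : ℕ → Set ℤ
  sep : ∀ s s' n n', n ∈ R s → n' ∈ R s' → (n = n' ∧ s = s') ∨
    (4 * L s < (n - n').natAbs ∧ 4 * L s' < (n - n').natAbs)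
  pos : ∀ s n, n ∈ R s → 4 * (L s : ℤ) < n

namespace RS
variable (S : RS)

/-- `v` is a child of `v - n`, the reset being `n`, of level `s` -/
def child (v n : ℤ) (s : ℕ) : Prop := n ∈ S.R s ∧ (v - n).natAbs < 2 * S.L s

/-- `v` is not a root -/
def IsChild (v : ℤ) : Prop := ∃ p : ℤ × ℕ, S.child v p.1 p.2

variable {S}

lemma child_unique {v n n' : ℤ} {s s' : ℕ} (h : S.child v n s) (h' : S.child v n' s') :
    n = n' ∧ s = s' := by
  rcases S.sep s s' n n' h.1 h'.1 with h1 | ⟨h1, h2⟩
  · exact h1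
  · exfalso
    have h3 := h.2
    have h4 := h'.2
    omega

lemma child.lt {v n : ℤ} {s : ℕ} (h : S.child v n s) : (v - n).natAbs < v.natAbs := by
  have h1 := S.pos s n h.1
  have h2 := h.2
  omega

lemma child.isChild {v n : ℤ} {s : ℕ} (h : S.child v n s) : S.IsChild v := ⟨(n, s), h⟩

lemma not_isChild_zero : ¬ S.IsChild 0 := by
  rintro ⟨⟨n, s⟩, h⟩
  have := h.lt
  omega

variable (S)

/-- height of a root: the distance to `0` and the resets -/
noncomputable def ht (v : ℤ) : ℕ :=
  sInf {k : ℕ | k = v.natAbs ∨ ∃ s, ∃ n ∈ S.R s, k = (v - n).natAbs}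

variable {S}

lemma ht_le_abs (v : ℤ) : S.ht v ≤ v.natAbs := Nat.sInf_le (Or.inl rfl)

lemma ht_le {v n : ℤ} {s : ℕ} (hn : n ∈ S.R s) : S.ht v ≤ (v - n).natAbs :=
  Nat.sInf_le (Or.inr ⟨s, n, hn, rfl⟩)

lemma le_ht {v : ℤ} {c : ℕ} (h0 : c ≤ v.natAbs)
    (h : ∀ s, ∀ n ∈ S.R s, c ≤ (v - n).natAbs) : c ≤ S.ht v := by
  have hne : {k : ℕ | k = v.natAbs ∨ ∃ s, ∃ n ∈ S.R s, k = (v - n).natAbs}.Nonempty :=
    ⟨v.natAbs, Or.inl rfl⟩
  have h1 := Nat.sInf_mem hne
  rcases h1 with h1 | ⟨s, n, hn, h1⟩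
  · rw [ht, h1]; exact h0
  · rw [ht, h1]; exact h s n hn

lemma ht_zero : S.ht 0 = 0 := by
  have := S.ht_le_abs 0
  simpa using this

lemma ht_succ (v : ℤ) : S.ht (v + 1) ≤ S.ht v + 1 := by
  have hne : {k : ℕ | k = v.natAbs ∨ ∃ s, ∃ n ∈ S.R s, k = (v - n).natAbs}.Nonempty :=
    ⟨v.natAbs, Or.inl rfl⟩
  have h1 := Nat.sInf_mem hne
  rcases h1 with h1 | ⟨s, n, hn, h1⟩
  · have h2 := S.ht_le_abs (v + 1)
    have h3 : S.ht v = v.natAbs := h1
    omega
  · have h2 := S.ht_le (v := v + 1) hn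
    have h3 : S.ht v = (v - n).natAbs := h1
    omega

variable (S)

open scoped Classical in
/-- weights -/
noncomputable def ell (v : ℤ) : ℝ :=
  if h : S.IsChild v then (4 : ℝ) ^ (((v - h.choose.1).natAbs : ℤ) - (S.L h.choose.2 : ℤ))
  else 2 ^ S.ht v

variable {S}

lemma ell_child {v n : ℤ} {s : ℕ} (h : S.child v n s) :
    S.ell v = (4 : ℝ) ^ (((v - n).natAbs : ℤ) - (S.L s : ℤ)) := by
  have h1 : S.IsChild v := h.isChild
  have h2 := child_unique h1.choose_spec h
  rw [ell, dif_pos h1, h2.1, h2.2]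

lemma ell_root {v : ℤ} (h : ¬ S.IsChild v) : S.ell v = 2 ^ S.ht v := by
  rw [ell, dif_neg h]

lemma ell_pos (v : ℤ) : 0 < S.ell v := by
  by_cases h : S.IsChild v
  · obtain ⟨⟨n, s⟩, h⟩ := h
    rw [ell_child h]; positivity
  · rw [ell_root h]; positivity

lemma ell_zero : S.ell 0 = 1 := by
  rw [ell_root not_isChild_zero, ht_zero, pow_zero]

/-- the weight of a child is at most `2 ^ |par v|` -/
lemma ell_child_le {v n : ℤ} {s : ℕ} (h : S.child v n s) :
    S.ell v ≤ (2 : ℝ) ^ (v - n).natAbs := by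
  rw [ell_child h]
  have h1 := h.2
  have h2 : (4 : ℝ) = 2 ^ (2 : ℤ) := by norm_num
  rw [h2, ← zpow_mul, ← zpow_natCast]
  exact zpow_le_zpow_right₀ (by norm_num) (by omega)

section delta
variable {E : Type*} [NormedAddCommGroup E] [NormedSpace ℝ E] (e : ℤ → E)
variable (S)

open scoped Classical in
/-- the orbit vectors: `δ v = ℓ(v) e_v + δ (par v)` -/
noncomputable def dl (v : ℤ) : E :=
  if h : S.IsChild v then S.ell v • e v + dl (v - h.choose.1) else S.ell v • e v
termination_by v.natAbs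
decreasing_by exact h.choose_spec.lt

variable {S}

lemma dl_child {v n : ℤ} {s : ℕ} (h : S.child v n s) :
    S.dl e v = S.ell v • e v + S.dl e (v - n) := by
  have h1 : S.IsChild v := h.isChild
  have h2 := child_unique h1.choose_spec h
  rw [dl, dif_pos h1, h2.1]

lemma dl_root {v : ℤ} (h : ¬ S.IsChild v) : S.dl e v = S.ell v • e v := by
  rw [dl, dif_neg h]

lemma dl_zero : S.dl e 0 = e 0 := by
  rw [dl_root e not_isChild_zero, ell_zero, one_smul]

lemma norm_dl_le (he : ∀ v, ‖e v‖ ≤ 1) (v : ℤ) : ‖S.dl e v‖ ≤ 2 ^ v.natAbs := by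
  induction hk : v.natAbs using Nat.strong_induction_on generalizing v with
  | _ k ih =>
    by_cases h : S.IsChild v
    · obtain ⟨⟨n, s⟩, h⟩ := h
      rw [dl_child e h]
      have h1 := h.lt
      have h2 := ih _ (hk ▸ h1) (v - n) rfl
      have h3 : ‖S.ell v • e v‖ ≤ 2 ^ (v - n).natAbs := by
        rw [norm_smul, Real.norm_of_nonneg (ell_pos v).le]
        calc S.ell v * ‖e v‖ ≤ S.ell v * 1 := by
              gcongr
              · exact (ell_pos v).le
              · exact he v
          _ ≤ _ := by rw [mul_one]; exact ell_child_le h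
      calc ‖S.ell v • e v + S.dl e (v - n)‖ ≤ 2 ^ (v - n).natAbs + 2 ^ (v - n).natAbs :=
            (norm_add_le _ _).trans (add_le_add h3 h2)
        _ = 2 ^ ((v - n).natAbs + 1) := by ring
        _ ≤ 2 ^ k := pow_le_pow_right₀ (by norm_num) (by simp only at h1; omega)
    · rw [dl_root e h, norm_smul, Real.norm_of_nonneg (ell_pos v).le, ell_root h]
      calc (2 : ℝ) ^ S.ht v * ‖e v‖ ≤ 2 ^ S.ht v * 1 := by
            gcongr
            exact he v
        _ ≤ 2 ^ k := by
          rw [mul_one, ← hk]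
          exact pow_le_pow_right₀ (by norm_num) (ht_le_abs v)

lemma norm_dl_child_le (he : ∀ v, ‖e v‖ ≤ 1) {v n : ℤ} {s : ℕ} (h : S.child v n s) :
    ‖S.dl e v‖ ≤ 2 * 2 ^ (v - n).natAbs := by
  rw [dl_child e h]
  have h2 := norm_dl_le (S := S) e he (v - n)
  have h3 : ‖S.ell v • e v‖ ≤ 2 ^ (v - n).natAbs := by
    rw [norm_smul, Real.norm_of_nonneg (ell_pos v).le]
    calc S.ell v * ‖e v‖ ≤ S.ell v * 1 := by
          gcongr
          · exact (ell_pos v).le
          · exact he v
      _ ≤ _ := by rw [mul_one]; exact ell_child_le h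
  calc ‖S.ell v • e v + S.dl e (v - n)‖ ≤ 2 ^ (v - n).natAbs + 2 ^ (v - n).natAbs :=
        (norm_add_le _ _).trans (add_le_add h3 h2)
    _ = _ := by ring

variable (S)

open scoped Classical in
/-- the image of the basis vector `e_v` under the operator -/
noncomputable def gT (v : ℤ) : E :=
  if h : S.IsChild v then (S.ell v)⁻¹ • (S.dl e (v + 1) - S.dl e (v + 1 - h.choose.1))
  else (S.ell v)⁻¹ • S.dl e (v + 1)

variable {S}

lemma gT_child {v n : ℤ} {s : ℕ} (h : S.child v n s) :
    S.gT e v = (S.ell v)⁻¹ • (S.dl e (v + 1) - S.dl e (v + 1 - n)) := by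
  have h1 : S.IsChild v := h.isChild
  have h2 := child_unique h1.choose_spec h
  rw [gT, dif_pos h1, h2.1]

lemma gT_root {v : ℤ} (h : ¬ S.IsChild v) : S.gT e v = (S.ell v)⁻¹ • S.dl e (v + 1) := by
  rw [gT, dif_neg h]

lemma norm_gT_le (he : ∀ v, ‖e v‖ ≤ 1) (v : ℤ) : ‖S.gT e v‖ ≤ 8 := by
  have hpos := S.ell_pos v
  by_cases h : S.IsChild v
  · obtain ⟨⟨n, s⟩, h⟩ := h
    simp only at h
    have hL := h.2
    rw [gT_child e h, norm_smul, norm_inv, Real.norm_of_nonneg hpos.le, inv_mul_le_iff₀ hpos]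
    by_cases h1 : (v + 1 - n).natAbs < 2 * S.L s
    · have h2 : S.child (v + 1) n s := ⟨h.1, h1⟩
      rw [dl_child e h2, add_sub_cancel_right, norm_smul, Real.norm_of_nonneg (ell_pos _).le]
      have h3 : S.ell (v + 1) ≤ S.ell v * 4 := by
        rw [ell_child h2, ell_child h, ← zpow_add_one₀ (by norm_num)]
        exact zpow_le_zpow_right₀ (by norm_num) (by omega)
      calc S.ell (v + 1) * ‖e (v + 1)‖ ≤ S.ell (v + 1) * 1 := by
            gcongr
            · exact (ell_pos _).le
            · exact he _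
        _ ≤ S.ell v * 8 := by rw [mul_one]; linarith
    · have h2 : v + 1 - n = 2 * S.L s := by omega
      have h3 : S.ell v = 4 ^ ((S.L s : ℤ) - 1) := by
        rw [ell_child h]
        congr 1
        omega
      have h5 : ¬ S.IsChild (v + 1) := by
        rintro ⟨⟨n', s'⟩, h5⟩
        simp only at h5
        have h6 := h5.2
        rcases S.sep s s' n n' h.1 h5.1 with h7 | ⟨h7, h8⟩
        · rw [← h7.1, ← h7.2] at h6
          omega
        · omega
      have h4 : ‖S.dl e (v + 1)‖ ≤ 4 ^ (S.L s) := by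
        rw [dl_root e h5, norm_smul, Real.norm_of_nonneg (ell_pos _).le, ell_root h5]
        have h6 : S.ht (v + 1) ≤ 2 * S.L s := by
          have := S.ht_le (v := v + 1) h.1
          omega
        calc (2 : ℝ) ^ S.ht (v + 1) * ‖e (v + 1)‖ ≤ 2 ^ (2 * S.L s) * 1 := by
              gcongr
              · norm_num
              · exact he _
          _ = 4 ^ (S.L s) := by rw [pow_mul]; norm_num
      have h6 : ‖S.dl e (v + 1 - n)‖ ≤ 4 ^ (S.L s) := by
        refine (norm_dl_le (S := S) e he _).trans ?_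
        rw [h2]
        have : (2 * (S.L s : ℤ)).natAbs = 2 * S.L s := by omega
        rw [this, pow_mul]
        norm_num
      have h7 : S.ell v * 8 = 4 ^ (S.L s) + 4 ^ (S.L s) := by
        rw [h3, zpow_sub_one₀ (by norm_num), zpow_natCast]
        ring
      rw [h7]
      exact (norm_sub_le _ _).trans (add_le_add h4 h6)
  · rw [gT_root e h, norm_smul, norm_inv, Real.norm_of_nonneg hpos.le, inv_mul_le_iff₀ hpos]
    by_cases h1 : S.IsChild (v + 1)
    · obtain ⟨⟨n, s⟩, h1⟩ := h1
      simp only at h1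
      have hL := h1.2
      have h2 : ¬ (v - n).natAbs < 2 * S.L s := fun h2 => h ⟨(n, s), h1.1, h2⟩
      have hn := S.pos s n h1.1
      have h3 : 2 * S.L s ≤ S.ht v := by
        refine le_ht ?_ ?_
        · omega
        · intro s' n' hn'
          rcases S.sep s s' n n' h1.1 hn' with h7 | ⟨h7, h8⟩
          · rw [← h7.1]; omega
          · omega
      have h4 : (v + 1 - n).natAbs + 1 = 2 * S.L s := by omega
      rw [ell_root h]
      calc ‖S.dl e (v + 1)‖ ≤ 2 * 2 ^ (v + 1 - n).natAbs := norm_dl_child_le e he h1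
        _ = 2 ^ (2 * S.L s) := by rw [← h4, pow_succ]; ring
        _ ≤ 2 ^ S.ht v := pow_le_pow_right₀ (by norm_num) h3
        _ ≤ 2 ^ S.ht v * 8 := by
          have : (0 : ℝ) < 2 ^ S.ht v := by positivity
          linarith
    · rw [dl_root e h1, norm_smul, Real.norm_of_nonneg (ell_pos _).le, ell_root h1, ell_root h]
      calc (2 : ℝ) ^ S.ht (v + 1) * ‖e (v + 1)‖ ≤ 2 ^ (S.ht v + 1) * 1 := by
            gcongr
            · norm_num
            · exact ht_succ v
            · exact he _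
        _ ≤ 2 ^ S.ht v * 8 := by
          have : (0 : ℝ) < 2 ^ S.ht v := by positivity
          rw [pow_succ]
          linarith

/-- an operator mapping `e v` to `gT v` maps `δ v` to `δ (v + 1)` -/
lemma map_dl {T : E →L[ℝ] E} (hT : ∀ v, T (e v) = S.gT e v) (v : ℤ) :
    T (S.dl e v) = S.dl e (v + 1) := by
  induction hk : v.natAbs using Nat.strong_induction_on generalizing v with
  | _ k ih =>
    have hpos := S.ell_pos v
    by_cases h : S.IsChild v
    · obtain ⟨⟨n, s⟩, h⟩ := h
      simp only at h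
      rw [dl_child e h, map_add, map_smul, hT, gT_child e h, ih _ (hk ▸ h.lt) (v - n) rfl,
        smul_smul, mul_inv_cancel₀ hpos.ne', one_smul,
        show v - n + 1 = v + 1 - n by ring, sub_add_cancel]
    · rw [dl_root e h, map_smul, hT, gT_root e h, smul_smul, mul_inv_cancel₀ hpos.ne', one_smul]

lemma pow_map_dl {T : E →L[ℝ] E} (hT : ∀ v, T (e v) = S.gT e v) (y : ℕ) (v : ℤ) :
    (T ^ y) (S.dl e v) = S.dl e (v + y) := by
  induction y generalizing v with
  | zero => simp
  | succ y ih =>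
    rw [pow_succ, mul_apply_eq_comp, map_dl e hT, ih]
    congr 1
    push_cast
    ring

end delta

end RS

end Pool.Agent.Y286.RR
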